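import Mathlib

set_option autoImplicit false

/-!
Separable sequences (avoiding 2413 and 3142) of length at least two are sum- or skew-decomposable.
-/

namespace Pool.Agent.V11294.TG

/-- avoidance of 2413 and 3142 by the first `n` values of `f` -/
def Sepf (f : ℕ → ℤ) (n : ℕ) : Prop :=
  ∀ a b c d : ℕ, a < b → b < c → c < d → d < n →
    ¬ (f c < f a ∧ f a < f d ∧ f d < f b) ∧ ¬ (f b < f d ∧ f d < f a ∧ f a < f c)

/-- cut of the first `n` values at `m` -/
def Cutf (f : ℕ → ℤ) (n m : ℕ) : Prop := ∀ i j : ℕ, i < m → m ≤ j → j < n → f i < f j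

def CutPf (f : ℕ → ℤ) (n : ℕ) : Prop := ∃ m, 0 < m ∧ m < n ∧ Cutf f n m

theorem Sepf_neg (f : ℕ → ℤ) (n : ℕ) (h : Sepf f n) : Sepf (fun i => -f i) n := by
  intro a b c d h1 h2 h3 h4
  obtain ⟨k1, k2⟩ := h a b c d h1 h2 h3 h4
  constructor
  · rintro ⟨l1, l2, l3⟩
    exact k2 ⟨by linarith, by linarith, by linarith⟩
  · rintro ⟨l1, l2, l3⟩
    exact k1 ⟨by linarith, by linarith, by linarith⟩

theorem Sepf_mono (f : ℕ → ℤ) (n m : ℕ) (hm : m ≤ n) (h : Sepf f n) : Sepf f m :=
  fun a b c d h1 h2 h3 h4 => h a b c d h1 h2 h3 (by omega)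

theorem step (f : ℕ → ℤ) (n : ℕ)
    (IH : ∀ m, m < n → 2 ≤ m → CutPf f m ∨ CutPf (fun i => -f i) m)
    (inj : ∀ i, i < n → f i ≠ f n) (hS : Sepf f (n + 1)) (hc : CutPf f n) :
    CutPf f (n + 1) ∨ CutPf (fun i => -f i) (n + 1) := by
  classical
  obtain ⟨hm0, hmn, hm⟩ := Nat.find_spec hc
  have hmin := fun m' (h : m' < Nat.find hc) => Nat.find_min hc h
  set m := Nat.find hc with hmdef
  by_cases hA : ∀ i, i < m → f i < f n
  · left
    refine ⟨m, hm0, by omega, ?_⟩
    intro i j hi hj hjn
    by_cases h : j = n
    · rw [h]; exact hA i hi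
    · exact hm i j hi hj (by omega)
  · push_neg at hA
    obtain ⟨p, hp, hpn⟩ := hA
    have hpn' : f n < f p := lt_of_le_of_ne hpn (fun h => inj p (by omega) h.symm)
    by_cases hB : ∀ q, q < n → f n < f q
    · right
      refine ⟨n, by omega, by omega, ?_⟩
      intro i j hi hj hjn
      have : j = n := by omega
      subst this
      have := hB i hi
      simp only
      linarith
    · exfalso
      push_neg at hB
      obtain ⟨q, hq, hqn⟩ := hB
      have hqn' : f q < f n := lt_of_le_of_ne hqn (inj q hq)
      have hqm : q < m := by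
        by_contra h
        have := hm p q hp (by omega) hq
        linarith
      have hpq : p ≠ q := fun h => by rw [h] at hpn'; linarith
      rcases IH m (by omega) (by omega) with h | h
      · obtain ⟨m', h1, h2, h3⟩ := h
        apply hmin m' h2
        refine ⟨h1, by omega, ?_⟩
        intro i j hi hj hjn
        by_cases hjm : j < m
        · exact h3 i j hi hj hjm
        · exact hm i j (by omega) (by omega) hjn
      · obtain ⟨m', h1, h2, h3⟩ := h
        have h3' : ∀ i j, i < m' → m' ≤ j → j < m → f j < f i := by
          intro i j hi hj hjm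
          have := h3 i j hi hj hjm
          simp only at this
          linarith
        have key : ∃ i j, i < m' ∧ m' ≤ j ∧ j < m ∧ f j < f n ∧ f n < f i := by
          by_cases hp' : p < m'
          · by_cases hq' : q < m'
            · have := h3' q m' hq' le_rfl h2
              exact ⟨p, m', hp', le_rfl, h2, by linarith, hpn'⟩
            · exact ⟨p, q, hp', by omega, hqm, hqn', hpn'⟩
          · by_cases hq' : q < m'
            · have := h3' q p hq' (by omega) hp
              exfalso
              linarith
            · have := h3' 0 p h1 (by omega) hp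
              exact ⟨0, q, h1, by omega, hqm, hqn', by linarith⟩
        obtain ⟨i, j, hi, hj, hjm, hjn, hin⟩ := key
        have h4 := (hS i j m n (by omega) (by omega) (by omega) (by omega)).2
        exact h4 ⟨hjn, hin, hm i m (by omega) le_rfl hmn⟩

theorem dec (n : ℕ) : ∀ (f : ℕ → ℤ), 2 ≤ n → (∀ i j, i < n → j < n → f i = f j → i = j) →
    Sepf f n → CutPf f n ∨ CutPf (fun i => -f i) n := by
  induction n using Nat.strong_induction_on with
  | _ n ih =>
    intro f hn inj hS
    obtain ⟨n, rfl⟩ : ∃ k, n = k + 1 := ⟨n - 1, by omega⟩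
    have IH : ∀ g : ℕ → ℤ, (∀ i j, i < n + 1 → j < n + 1 → g i = g j → i = j) → Sepf g (n + 1) →
        ∀ m, m < n + 1 → 2 ≤ m → CutPf g m ∨ CutPf (fun i => -g i) m := by
      intro g hg hgS m hm hm2
      exact ih m hm g hm2 (fun i j hi hj h => hg i j (by omega) (by omega) h)
        (Sepf_mono g (n + 1) m (by omega) hgS)
    by_cases h1 : n = 1
    · subst h1
      rcases lt_trichotomy (f 0) (f 1) with h | h | h
      · left
        refine ⟨1, by omega, by omega, ?_⟩
        intro i j hi hj hjn
        have e1 : i = 0 := by omega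
        have e2 : j = 1 := by omega
        rw [e1, e2]; exact h
      · exfalso
        have := inj 0 1 (by omega) (by omega) h
        omega
      · right
        refine ⟨1, by omega, by omega, ?_⟩
        intro i j hi hj hjn
        have e1 : i = 0 := by omega
        have e2 : j = 1 := by omega
        rw [e1, e2]; simp only; linarith
    · rcases IH f inj hS n (by omega) (by omega) with h | h
      · exact step f n (fun m hm hm2 => IH f inj hS m (by omega) hm2)
          (fun i hi h => by have := inj i n (by omega) (by omega) h; omega) hS h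
      · have hneg : (fun i => -(fun i => -f i) i) = f := by
          funext i; simp
        have := step (fun i => -f i) n (fun m hm hm2 => by
            rw [hneg]; exact (IH f inj hS m (by omega) hm2).symm)
          (fun i hi h => by
            have h' : f i = f n := by simpa using h
            have := inj i n (by omega) (by omega) h'; omega) (Sepf_neg f (n + 1) hS) h
        rw [hneg] at this
        exact this.symm

theorem cut_excl (f : ℕ → ℤ) (n : ℕ) (h1 : CutPf f n) (h2 : CutPf (fun i => -f i) n) : False := by
  obtain ⟨m, h1, h3, h4⟩ := h1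
  obtain ⟨m', h1', h3', h4'⟩ := h2
  have k1 := h4 0 (n - 1) h1 (by omega) (by omega)
  have k2 := h4' 0 (n - 1) h1' (by omega) (by omega)
  simp only at k2
  linarith

end Pool.Agent.V11294.TG
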