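import Mathlib

set_option autoImplicit false

/-!
Two-sided Eulerian polynomials: recurrence by insertion of a cell.
-/

namespace Pool.Agent.V11294.TG

open Finset

/-- the number of descents of a permutation of `n` elements -/
def des {n : ℕ} (σ : Equiv.Perm (Fin n)) : ℕ :=
  ((Finset.univ : Finset (Fin n)).filter
    (fun i : Fin n => ∃ h : (i : ℕ) + 1 < n, σ ⟨(i : ℕ) + 1, h⟩ < σ i)).card

/-- the one-line notation with `0 ↦ 0` and `n+1 ↦ n+1` added -/
def ex {n : ℕ} (σ : Equiv.Perm (Fin n)) (i : ℕ) : ℕ :=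
  if h : 1 ≤ i ∧ i ≤ n then (σ ⟨i - 1, by omega⟩ : ℕ) + 1 else i

theorem ex_succ {n : ℕ} (σ : Equiv.Perm (Fin n)) (i : Fin n) : ex σ ((i : ℕ) + 1) = (σ i : ℕ) + 1 := by
  unfold ex
  rw [dif_pos ⟨by omega, i.2⟩]
  simp

theorem ex_zero {n : ℕ} (σ : Equiv.Perm (Fin n)) : ex σ 0 = 0 := by
  unfold ex; rw [dif_neg (by omega)]

theorem ex_big {n : ℕ} (σ : Equiv.Perm (Fin n)) (i : ℕ) (h : n < i) : ex σ i = i := by
  unfold ex; rw [dif_neg (by omega)]

theorem ex_cases {n : ℕ} (i : ℕ) : i = 0 ∨ n < i ∨ ∃ j : Fin n, i = (j : ℕ) + 1 := by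
  by_cases h0 : i = 0
  · left; exact h0
  · by_cases h1 : n < i
    · right; left; exact h1
    · right; right
      exact ⟨⟨i - 1, by omega⟩, by simp; omega⟩

theorem ex_inv {n : ℕ} (σ : Equiv.Perm (Fin n)) (i : ℕ) : ex σ⁻¹ (ex σ i) = i := by
  rcases ex_cases (n := n) i with h | h | ⟨j, h⟩
  · subst h; simp [ex_zero]
  · rw [ex_big σ i h, ex_big _ i h]
  · subst h
    rw [ex_succ, ex_succ]
    simp

theorem ex_iff {n : ℕ} (σ : Equiv.Perm (Fin n)) (i j : ℕ) : ex σ i = j ↔ ex σ⁻¹ j = i := by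
  constructor
  · intro h; subst h; exact ex_inv σ i
  · intro h; subst h
    have := ex_inv σ⁻¹ j
    simpa using this

theorem ex_le {n : ℕ} (σ : Equiv.Perm (Fin n)) (i : ℕ) (h : i ≤ n + 1) : ex σ i ≤ n + 1 := by
  rcases ex_cases (n := n) i with h' | h' | ⟨j, h'⟩
  · subst h'; simp [ex_zero]
  · rw [ex_big σ i h']; exact h
  · subst h'
    rw [ex_succ]
    have := (σ j).2
    omega

theorem ex_le' {n : ℕ} (σ : Equiv.Perm (Fin n)) (i : ℕ) (h : i ≤ n) : ex σ i ≤ n := by
  rcases ex_cases (n := n) i with h' | h' | ⟨j, h'⟩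
  · subst h'; simp [ex_zero]
  · omega
  · subst h'
    rw [ex_succ]
    have := (σ j).2
    omega

theorem des_eq {n : ℕ} (σ : Equiv.Perm (Fin n)) :
    des σ = ∑ i ∈ range (n + 1), if ex σ (i + 1) < ex σ i then 1 else 0 := by
  rw [Finset.sum_range_succ']
  rw [ex_zero, if_neg (by omega), add_zero]
  unfold des
  rw [Finset.card_filter]
  rw [← Fin.sum_univ_eq_sum_range (fun i => if ex σ (i + 1 + 1) < ex σ (i + 1) then 1 else 0) n]
  apply Finset.sum_congr rfl
  intro i _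
  rw [ex_succ]
  by_cases h : (i : ℕ) + 1 < n
  · have h1 := ex_succ σ ⟨(i : ℕ) + 1, h⟩
    simp only at h1
    rw [h1]
    congr 1
    rw [eq_iff_iff]
    constructor
    · rintro ⟨_, h2⟩
      have : ((σ ⟨(i : ℕ) + 1, h⟩ : Fin n) : ℕ) < (σ i : ℕ) := h2
      omega
    · intro h2
      refine ⟨h, ?_⟩
      show ((σ ⟨(i : ℕ) + 1, h⟩ : Fin n) : ℕ) < (σ i : ℕ)
      omega
  · rw [ex_big σ ((i : ℕ) + 1 + 1) (by omega)]
    rw [if_neg (by rintro ⟨h2, _⟩; exact h h2), if_neg]
    have := (σ i).2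
    have := i.2
    omega

/-- insertion of the value `q` at the place `p` -/
def ins {n : ℕ} (p q : Fin (n + 1)) (τ : Equiv.Perm (Fin n)) : Equiv.Perm (Fin (n + 1)) :=
  (finSuccEquiv' p).trans ((Equiv.optionCongr τ).trans (finSuccEquiv' q).symm)

theorem ins_self {n : ℕ} (p q : Fin (n + 1)) (τ : Equiv.Perm (Fin n)) : ins p q τ p = q := by
  simp [ins]

theorem ins_succAbove {n : ℕ} (p q : Fin (n + 1)) (τ : Equiv.Perm (Fin n)) (i : Fin n) :
    ins p q τ (p.succAbove i) = q.succAbove (τ i) := by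
  simp [ins]

theorem ins_inv {n : ℕ} (p q : Fin (n + 1)) (τ : Equiv.Perm (Fin n)) :
    (ins p q τ)⁻¹ = ins q p τ⁻¹ := by
  rw [inv_eq_iff_mul_eq_one]
  ext i
  by_cases h : i = q
  · subst h
    simp [ins_self]
  · obtain ⟨j, rfl⟩ := Fin.exists_succAbove_eq h
    simp [ins_succAbove]

theorem ins_bij {n : ℕ} (p : Fin (n + 1)) :
    Function.Bijective (fun x : Fin (n + 1) × Equiv.Perm (Fin n) => ins p x.1 x.2) := by
  rw [Fintype.bijective_iff_injective_and_card]
  constructor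
  · rintro ⟨q, τ⟩ ⟨q', τ'⟩ h
    simp only at h
    have h1 : q = q' := by
      rw [← ins_self p q τ, h, ins_self]
    subst h1
    congr 1
    ext i
    have h2 := congrArg (fun e : Equiv.Perm (Fin (n + 1)) => e (p.succAbove i)) h
    simp only [ins_succAbove] at h2
    rw [Fin.succAbove_right_inj] at h2
    rw [h2]
  · simp [Fintype.card_perm, Nat.factorial_succ]

/-- shift of the values above `q` -/
def up (q v : ℕ) : ℕ := if v ≤ q then v else v + 1

theorem up_lt (q v w : ℕ) : up q v < up q w ↔ v < w := by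
  unfold up
  split_ifs <;> omega

theorem succAbove_val {n : ℕ} (q : Fin (n + 1)) (i : Fin n) :
    ((q.succAbove i : Fin (n + 1)) : ℕ) + 1 = up q ((i : ℕ) + 1) := by
  unfold up
  by_cases h : (i : ℕ) + 1 ≤ q
  · rw [Fin.succAbove_of_castSucc_lt q i (by rw [Fin.lt_def]; simp; omega), if_pos h]
    simp
  · rw [Fin.succAbove_of_le_castSucc q i (by rw [Fin.le_def]; simp; omega), if_neg h]
    simp

theorem ex_ins_lt {n : ℕ} (p q : Fin (n + 1)) (τ : Equiv.Perm (Fin n)) (i : ℕ) (h : i ≤ p) :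
    ex (ins p q τ) i = up q (ex τ i) := by
  rcases Nat.eq_zero_or_pos i with h0 | h0
  · subst h0
    simp [ex_zero, up]
  · obtain ⟨j, rfl⟩ : ∃ j, i = j + 1 := ⟨i - 1, by omega⟩
    have hp := p.2
    have h1 := ex_succ (ins p q τ) (p.succAbove ⟨j, by omega⟩)
    rw [ins_succAbove, succAbove_val, succAbove_val] at h1
    have h2 := ex_succ τ ⟨j, by omega⟩
    simp only at h2
    have h3 : up (p : ℕ) (j + 1) = j + 1 := if_pos h
    simp only [h3] at h1
    rw [h2, ← h1]

theorem ex_ins_eq {n : ℕ} (p q : Fin (n + 1)) (τ : Equiv.Perm (Fin n)) :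
    ex (ins p q τ) ((p : ℕ) + 1) = q + 1 := by
  rw [ex_succ, ins_self]

theorem ex_ins_gt {n : ℕ} (p q : Fin (n + 1)) (τ : Equiv.Perm (Fin n)) (i : ℕ) (h : (p : ℕ) < i) :
    ex (ins p q τ) (i + 1) = up q (ex τ i) := by
  have hq := q.2
  by_cases h0 : n < i
  · rw [ex_big _ _ h0, ex_big _ _ (by omega)]
    unfold up
    rw [if_neg (by omega)]
  · obtain ⟨j, rfl⟩ : ∃ j, i = j + 1 := ⟨i - 1, by omega⟩
    have h1 := ex_succ (ins p q τ) (p.succAbove ⟨j, by omega⟩)
    rw [ins_succAbove, succAbove_val, succAbove_val] at h1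
    have h2 := ex_succ τ ⟨j, by omega⟩
    simp only at h2
    have h3 : up (p : ℕ) (j + 1) = j + 1 + 1 := if_neg (by omega)
    simp only [h3] at h1
    rw [h2, ← h1]

/-- descent indicator -/
def D (f : ℕ → ℕ) (p : ℕ) : ℤ := if f (p + 1) < f p then 1 else 0

/-- `f p ≤ q` -/
def c (f : ℕ → ℕ) (p q : ℕ) : ℤ := if f p ≤ q then 1 else 0

theorem des_D {n : ℕ} (σ : Equiv.Perm (Fin n)) :
    (des σ : ℤ) = ∑ i ∈ range (n + 1), D (ex σ) i := by
  rw [des_eq]
  push_cast
  rfl

theorem des_ins {n : ℕ} (p q : Fin (n + 1)) (τ : Equiv.Perm (Fin n)) :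
    (des (ins p q τ) : ℤ) = des τ + 1 -
      (D (ex τ) p + c (ex τ) p q - c (ex τ) (p + 1) q) := by
  rw [des_D, des_D]
  obtain ⟨r, hr⟩ : ∃ r, n = p + r := ⟨n - p, by have := p.2; omega⟩
  have e1 : n + 1 + 1 = (p : ℕ) + (2 + r) := by omega
  have e2 : n + 1 = (p : ℕ) + (1 + r) := by omega
  have e3 : range (n + 1) = range ((p : ℕ) + (1 + r)) := congrArg range e2
  rw [e1, Finset.sum_range_add, e3]
  rw [Finset.sum_range_add (fun i => D (ex τ) i) (p : ℕ) (1 + r)]
  rw [Finset.sum_range_add _ 2 r, Finset.sum_range_add _ 1 r]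
  rw [Finset.sum_range_succ, Finset.sum_range_one, Finset.sum_range_one]
  have s1 : ∑ x ∈ range (p : ℕ), D (ex (ins p q τ)) x = ∑ x ∈ range (p : ℕ), D (ex τ) x := by
    apply Finset.sum_congr rfl
    intro x hx
    have hx' := Finset.mem_range.mp hx
    unfold D
    rw [ex_ins_lt p q τ x (by omega), ex_ins_lt p q τ (x + 1) (by omega)]
    simp only [up_lt]
  have s2 : ∑ x ∈ range r, D (ex (ins p q τ)) ((p : ℕ) + (2 + x)) =
      ∑ x ∈ range r, D (ex τ) ((p : ℕ) + (1 + x)) := by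
    apply Finset.sum_congr rfl
    intro x _
    unfold D
    have h1 := ex_ins_gt p q τ ((p : ℕ) + (1 + x)) (by omega)
    have h2 := ex_ins_gt p q τ ((p : ℕ) + (1 + x) + 1) (by omega)
    rw [show (p : ℕ) + (2 + x) = (p : ℕ) + (1 + x) + 1 by ring, h1, h2]
    simp only [up_lt]
  rw [s1, s2]
  have s3 : D (ex (ins p q τ)) ((p : ℕ) + 0) = 1 - c (ex τ) p q := by
    unfold D c
    rw [add_zero, ex_ins_eq, ex_ins_lt p q τ p le_rfl]
    unfold up
    split_ifs <;> omega
  have s4 : D (ex (ins p q τ)) ((p : ℕ) + 1) = c (ex τ) (p + 1) q := by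
    unfold D c
    rw [ex_ins_eq, ex_ins_gt p q τ (p + 1) (by omega)]
    unfold up
    split_ifs <;> omega
  rw [s3, s4, add_zero]
  ring

theorem d_cases (f : ℕ → ℕ) (p q : ℕ) :
    D f p + c f p q - c f (p + 1) q = 0 ∨ D f p + c f p q - c f (p + 1) q = 1 := by
  unfold D c
  split_ifs <;> first | (exfalso; omega) | (left; norm_num; done) | (right; norm_num; done)

section sums

variable {N : ℕ} (f g : ℕ → ℕ) (hfg : ∀ i j, f i = j ↔ g j = i) (f0 : f 0 = 0)
  (fN : f (N + 1) = N + 1) (hf : ∀ i, i ≤ N + 1 → f i ≤ N + 1) (hg : ∀ i, i ≤ N + 1 → g i ≤ N + 1)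

include f0 fN in
theorem sum_d1 (q : ℕ) (hq : q ≤ N) :
    ∑ p ∈ range (N + 1), (c f p q - c f (p + 1) q) = 1 := by
  rw [Finset.sum_range_sub' (fun p => c f p q) (N + 1)]
  unfold c
  rw [f0, fN, if_pos (Nat.zero_le _), if_neg (by omega)]
  norm_num

include f0 fN in
theorem sum_d :
    ∑ p ∈ range (N + 1), ∑ q ∈ range (N + 1), (D f p + c f p q - c f (p + 1) q) =
      (N + 1) * (∑ p ∈ range (N + 1), D f p + 1) := by
  have h1 : ∀ p ∈ range (N + 1), ∑ q ∈ range (N + 1), (D f p + c f p q - c f (p + 1) q) =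
      (N + 1) * D f p + ∑ q ∈ range (N + 1), (c f p q - c f (p + 1) q) := by
    intro p _
    rw [← Finset.sum_congr rfl (fun q _ => (add_sub_assoc (D f p) (c f p q) (c f (p+1) q)).symm),
      Finset.sum_add_distrib]
    simp
  rw [Finset.sum_congr rfl h1, Finset.sum_add_distrib, Finset.sum_comm (s := range (N+1))
    (t := range (N+1)) (f := fun p q => c f p q - c f (p + 1) q)]
  rw [Finset.sum_congr rfl (fun q hq => sum_d1 f f0 fN q (by
    have := Finset.mem_range.mp hq; omega)), ← Finset.mul_sum]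
  simp
  ring

include hfg in
theorem point (p q : ℕ) :
    (c f p q - c f (p + 1) q) * (c g q p - c g (q + 1) p) =
      (c f p q * c g q p - c f p (q + 1) * c g (q + 1) p)
      - (c f (p + 1) q * c g q (p + 1) - c f (p + 1) (q + 1) * c g (q + 1) (p + 1))
      + (c f p (q + 1) - c f p q) + (c g q (p + 1) - c g q p)
      - (c f (p + 1) (q + 1) - c f (p + 1) q) := by
  have h1 := hfg p q
  have h2 := hfg p (q + 1)
  have h3 := hfg (p + 1) q
  have h4 := hfg (p + 1) (q + 1)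
  unfold c
  split_ifs <;> first | rfl | (exfalso; omega)

include hfg f0 fN hf hg in
theorem sum_W :
    ∑ p ∈ range (N + 1), ∑ q ∈ range (N + 1),
      (c f p q - c f (p + 1) q) * (c g q p - c g (q + 1) p) = N + 1 := by
  have g0 : g 0 = 0 := (hfg 0 0).mp f0
  have gN : g (N + 1) = N + 1 := (hfg _ _).mp fN
  have fpos : ∀ i, f i = 0 → i = 0 := fun i h => by
    have := (hfg i 0).mp h
    omega
  have gpos : ∀ i, g i = 0 → i = 0 := fun i h => by
    have := (hfg 0 i).mpr h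
    omega
  rw [Finset.sum_congr rfl (fun p _ => Finset.sum_congr rfl (fun q _ => point f g hfg p q))]
  have A : ∑ p ∈ range (N + 1), ∑ q ∈ range (N + 1),
      (c f p (q + 1) - c f p q) = N := by
    have h : ∀ p ∈ range (N + 1), ∑ q ∈ range (N + 1), (c f p (q + 1) - c f p q) =
        if p = 0 then 0 else 1 := by
      intro p hp
      have hp' := Finset.mem_range.mp hp
      rw [Finset.sum_range_sub (fun q => c f p q) (N + 1)]
      unfold c
      rw [if_pos (hf p (by omega))]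
      by_cases h : p = 0
      · subst h; rw [f0]; simp
      · rw [if_neg h, if_neg (fun h2 => h (fpos p (by omega)))]
        simp
    rw [Finset.sum_congr rfl h, Finset.sum_range_succ']
    simp
  have B : ∑ p ∈ range (N + 1), ∑ q ∈ range (N + 1),
      (c g q (p + 1) - c g q p) = N := by
    rw [Finset.sum_comm]
    have h : ∀ q ∈ range (N + 1), ∑ p ∈ range (N + 1), (c g q (p + 1) - c g q p) =
        if q = 0 then 0 else 1 := by
      intro p hp
      have hp' := Finset.mem_range.mp hp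
      rw [Finset.sum_range_sub (fun q => c g p q) (N + 1)]
      unfold c
      rw [if_pos (hg p (by omega))]
      by_cases h : p = 0
      · subst h; rw [g0]; simp
      · rw [if_neg h, if_neg (fun h2 => h (gpos p (by omega)))]
        simp
    rw [Finset.sum_congr rfl h, Finset.sum_range_succ']
    simp
  have C : ∑ p ∈ range (N + 1), ∑ q ∈ range (N + 1),
      (c f (p + 1) (q + 1) - c f (p + 1) q) = N + 1 := by
    have h : ∀ p ∈ range (N + 1), ∑ q ∈ range (N + 1), (c f (p + 1) (q + 1) - c f (p + 1) q) =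
        1 := by
      intro p hp
      have hp' := Finset.mem_range.mp hp
      rw [Finset.sum_range_sub (fun q => c f (p + 1) q) (N + 1)]
      unfold c
      rw [if_pos (hf (p + 1) (by omega)), if_neg (fun h2 => by
        have := fpos (p + 1) (by omega)
        omega)]
      simp
    rw [Finset.sum_congr rfl h]
    simp
  have X : ∑ p ∈ range (N + 1), ∑ q ∈ range (N + 1),
      ((c f p q * c g q p - c f p (q + 1) * c g (q + 1) p)
      - (c f (p + 1) q * c g q (p + 1) - c f (p + 1) (q + 1) * c g (q + 1) (p + 1))) = 2 := by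
    have h : ∀ p ∈ range (N + 1), ∑ q ∈ range (N + 1),
      ((c f p q * c g q p - c f p (q + 1) * c g (q + 1) p)
      - (c f (p + 1) q * c g q (p + 1) - c f (p + 1) (q + 1) * c g (q + 1) (p + 1))) =
      (fun p => c f p 0 * c g 0 p - c f p (N + 1) * c g (N + 1) p) p -
      (fun p => c f p 0 * c g 0 p - c f p (N + 1) * c g (N + 1) p) (p + 1) := by
      intro p _
      rw [Finset.sum_sub_distrib]
      rw [Finset.sum_range_sub' (fun q => c f p q * c g q p) (N + 1)]
      rw [Finset.sum_range_sub' (fun q => c f (p + 1) q * c g q (p + 1)) (N + 1)]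
    rw [Finset.sum_congr rfl h, Finset.sum_range_sub'
      (fun p => c f p 0 * c g 0 p - c f p (N + 1) * c g (N + 1) p) (N + 1)]
    unfold c
    rw [f0, g0, fN, gN]
    simp
  simp only [Finset.sum_add_distrib, Finset.sum_sub_distrib] at A B C X ⊢
  linarith

include hfg f0 fN hf hg in
theorem sum_dd :
    ∑ p ∈ range (N + 1), ∑ q ∈ range (N + 1),
      (D f p + c f p q - c f (p + 1) q) * (D g q + c g q p - c g (q + 1) p) =
      (∑ p ∈ range (N + 1), D f p + 1) * (∑ p ∈ range (N + 1), D g p + 1) + N := by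
  have g0 : g 0 = 0 := (hfg 0 0).mp f0
  have gN : g (N + 1) = N + 1 := (hfg _ _).mp fN
  have e : ∀ p q, (D f p + c f p q - c f (p + 1) q) * (D g q + c g q p - c g (q + 1) p) =
      D f p * D g q + D f p * (c g q p - c g (q + 1) p) + D g q * (c f p q - c f (p + 1) q)
      + (c f p q - c f (p + 1) q) * (c g q p - c g (q + 1) p) := by
    intro p q; ring
  rw [Finset.sum_congr rfl (fun p _ => Finset.sum_congr rfl (fun q _ => e p q))]
  have s1 : ∑ p ∈ range (N + 1), ∑ q ∈ range (N + 1), D f p * D g q =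
      (∑ p ∈ range (N + 1), D f p) * (∑ p ∈ range (N + 1), D g p) := by
    rw [Finset.sum_mul_sum]
  have s2 : ∑ p ∈ range (N + 1), ∑ q ∈ range (N + 1), D f p * (c g q p - c g (q + 1) p) =
      ∑ p ∈ range (N + 1), D f p := by
    apply Finset.sum_congr rfl
    intro p hp
    rw [← Finset.mul_sum, sum_d1 g g0 gN p (by have := Finset.mem_range.mp hp; omega), mul_one]
  have s3 : ∑ p ∈ range (N + 1), ∑ q ∈ range (N + 1), D g q * (c f p q - c f (p + 1) q) =
      ∑ p ∈ range (N + 1), D g p := by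
    rw [Finset.sum_comm]
    apply Finset.sum_congr rfl
    intro q hq
    rw [← Finset.mul_sum, sum_d1 f f0 fN q (by have := Finset.mem_range.mp hq; omega), mul_one]
  have s4 := sum_W f g hfg f0 fN hf hg
  simp only [Finset.sum_add_distrib]
  rw [s1, s2, s3, s4]
  ring

end sums

/-- the two-sided Eulerian polynomial (times `s t`) evaluated in a commutative ring -/
def B {R : Type*} [CommRing R] (N : ℕ) (s t : R) : R :=
  ∑ σ : Equiv.Perm (Fin N), s ^ (des σ⁻¹ + 1) * t ^ (des σ + 1)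

theorem B_rec {R : Type*} [CommRing R] (N : ℕ) (s t : R) :
    ((N : R) + 1) * B (N + 1) s t = ∑ τ : Equiv.Perm (Fin N), s ^ (des τ⁻¹ + 1) * t ^ (des τ + 1) *
      (((N : R) + 1) ^ 2 * (s * t) + (N + 1) * (1 - s) * t * ((des τ⁻¹ : R) + 1)
        + (N + 1) * s * (1 - t) * ((des τ : R) + 1)
        + (1 - s) * (1 - t) * (((des τ : R) + 1) * ((des τ⁻¹ : R) + 1) + N)) := by
  have h1 : ∀ p : Fin (N + 1), B (N + 1) s t = ∑ q : Fin (N + 1), ∑ τ : Equiv.Perm (Fin N),
      s ^ (des (ins p q τ)⁻¹ + 1) * t ^ (des (ins p q τ) + 1) := by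
    intro p
    rw [← Fintype.sum_prod_type']
    unfold B
    exact (Function.Bijective.sum_comp (ins_bij p)
      (fun σ => s ^ (des σ⁻¹ + 1) * t ^ (des σ + 1))).symm
  have h2 : ((N : R) + 1) * B (N + 1) s t = ∑ p : Fin (N + 1), B (N + 1) s t := by
    simp
  rw [h2, Finset.sum_congr rfl (fun p _ => h1 p)]
  rw [Finset.sum_congr rfl (fun p _ => Finset.sum_comm)]
  rw [Finset.sum_comm]
  apply Finset.sum_congr rfl
  intro τ _
  have h3 : ∀ p q : Fin (N + 1), s ^ (des (ins p q τ)⁻¹ + 1) * t ^ (des (ins p q τ) + 1) =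
      s ^ (des τ⁻¹ + 1) * t ^ (des τ + 1) * ((s * t) +
        s * (1 - t) * ((D (ex τ) p + c (ex τ) p q - c (ex τ) (p + 1) q : ℤ) : R)
        + (1 - s) * t * ((D (ex τ⁻¹) q + c (ex τ⁻¹) q p - c (ex τ⁻¹) (q + 1) p : ℤ) : R)
        + (1 - s) * (1 - t) * (((D (ex τ) p + c (ex τ) p q - c (ex τ) (p + 1) q) *
          (D (ex τ⁻¹) q + c (ex τ⁻¹) q p - c (ex τ⁻¹) (q + 1) p) : ℤ) : R)) := by
    intro p q
    have k1 := des_ins p q τ
    have k2 := des_ins q p τ⁻¹
    rw [← ins_inv] at k2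
    have m1 : t ^ (des (ins p q τ) + 1) = t ^ (des τ + 1) * (t + (1 - t) *
        ((D (ex τ) p + c (ex τ) p q - c (ex τ) (p + 1) q : ℤ) : R)) := by
      rcases d_cases (ex τ) p q with h | h
      · rw [h] at k1 ⊢
        have : des (ins p q τ) = des τ + 1 := by omega
        rw [this]; simp [pow_succ]
      · rw [h] at k1 ⊢
        have : des (ins p q τ) = des τ := by omega
        rw [this]; simp
    have m2 : s ^ (des (ins p q τ)⁻¹ + 1) = s ^ (des τ⁻¹ + 1) * (s + (1 - s) *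
        ((D (ex τ⁻¹) q + c (ex τ⁻¹) q p - c (ex τ⁻¹) (q + 1) p : ℤ) : R)) := by
      rcases d_cases (ex τ⁻¹) q p with h | h
      · rw [h] at k2 ⊢
        have : des (ins p q τ)⁻¹ = des τ⁻¹ + 1 := by omega
        rw [this]; simp [pow_succ]
      · rw [h] at k2 ⊢
        have : des (ins p q τ)⁻¹ = des τ⁻¹ := by omega
        rw [this]; simp
    rw [m1, m2]
    push_cast
    ring
  rw [Finset.sum_congr rfl (fun p _ => Finset.sum_congr rfl (fun q _ => h3 p q))]
  simp only [← Finset.mul_sum]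
  congr 1
  simp only [Finset.sum_add_distrib, ← Finset.mul_sum]
  have t1 : ∑ p : Fin (N + 1), ∑ q : Fin (N + 1),
      ((D (ex τ) p + c (ex τ) p q - c (ex τ) (p + 1) q : ℤ) : R) =
      (N + 1) * ((des τ : R) + 1) := by
    have := sum_d (N := N) (ex τ) (ex_zero τ) (ex_big τ _ (by omega))
    rw [← des_D] at this
    rw [← Fin.sum_univ_eq_sum_range (fun p => ∑ q ∈ range (N + 1),
      (D (ex τ) p + c (ex τ) p q - c (ex τ) (p + 1) q)) (N + 1)] at this
    rw [Finset.sum_congr rfl (fun (p : Fin (N + 1)) _ => (Fin.sum_univ_eq_sum_range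
      (fun q => D (ex τ) p + c (ex τ) p q - c (ex τ) (p + 1) q) (N + 1)).symm)] at this
    have h := congrArg (fun z : ℤ => (z : R)) this
    push_cast at h ⊢
    exact h
  have t2 : ∑ p : Fin (N + 1), ∑ q : Fin (N + 1),
      ((D (ex τ⁻¹) q + c (ex τ⁻¹) q p - c (ex τ⁻¹) (q + 1) p : ℤ) : R) =
      (N + 1) * ((des τ⁻¹ : R) + 1) := by
    rw [Finset.sum_comm]
    have := sum_d (N := N) (ex τ⁻¹) (ex_zero τ⁻¹) (ex_big τ⁻¹ _ (by omega))
    rw [← des_D] at this
    rw [← Fin.sum_univ_eq_sum_range (fun p => ∑ q ∈ range (N + 1),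
      (D (ex τ⁻¹) p + c (ex τ⁻¹) p q - c (ex τ⁻¹) (p + 1) q)) (N + 1)] at this
    rw [Finset.sum_congr rfl (fun (p : Fin (N + 1)) _ => (Fin.sum_univ_eq_sum_range
      (fun q => D (ex τ⁻¹) p + c (ex τ⁻¹) p q - c (ex τ⁻¹) (p + 1) q) (N + 1)).symm)] at this
    have h := congrArg (fun z : ℤ => (z : R)) this
    push_cast at h ⊢
    exact h
  have t3 : ∑ p : Fin (N + 1), ∑ q : Fin (N + 1),
      (((D (ex τ) p + c (ex τ) p q - c (ex τ) (p + 1) q) *
          (D (ex τ⁻¹) q + c (ex τ⁻¹) q p - c (ex τ⁻¹) (q + 1) p) : ℤ) : R) =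
      ((des τ : R) + 1) * ((des τ⁻¹ : R) + 1) + N := by
    have := sum_dd (N := N) (ex τ) (ex τ⁻¹) (ex_iff τ) (ex_zero τ) (ex_big τ _ (by omega))
      (ex_le τ) (ex_le τ⁻¹)
    rw [← des_D, ← des_D] at this
    rw [← Fin.sum_univ_eq_sum_range (fun p => ∑ q ∈ range (N + 1),
      (D (ex τ) p + c (ex τ) p q - c (ex τ) (p + 1) q) *
      (D (ex τ⁻¹) q + c (ex τ⁻¹) q p - c (ex τ⁻¹) (q + 1) p)) (N + 1)] at this
    rw [Finset.sum_congr rfl (fun (p : Fin (N + 1)) _ => (Fin.sum_univ_eq_sum_range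
      (fun q => (D (ex τ) p + c (ex τ) p q - c (ex τ) (p + 1) q) *
      (D (ex τ⁻¹) q + c (ex τ⁻¹) q p - c (ex τ⁻¹) (q + 1) p)) (N + 1)).symm)] at this
    have h := congrArg (fun z : ℤ => (z : R)) this
    push_cast at h ⊢
    exact h
  rw [t1, t2, t3]
  simp only [Finset.sum_const, Finset.card_univ, Fintype.card_fin, nsmul_eq_mul]
  push_cast
  ring

end Pool.Agent.V11294.TG
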