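import Mathlib

set_option autoImplicit false

/-!
The numbers `sg m k` (`n = m + 1`) and their sub-recurrence.
-/

namespace Pool.Agent.V11294.TG

open Finset

/-- the coefficient with `n = m + 1` -/
def sg (m k : ℕ) : ℚ := ((m.choose (2 * k) : ℕ) : ℚ) / (2 * k + 1) *
  ∑ r ∈ range (k + 1), (((2 * k + 1).choose (k - r) : ℕ) : ℚ) * (((m + r).choose r : ℕ) : ℚ)

theorem sg_nonneg (m k : ℕ) : 0 ≤ sg m k := by
  unfold sg
  positivity

theorem sg_zero (m : ℕ) : sg m 0 = 1 := by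
  unfold sg
  simp

theorem sg_big (m k : ℕ) (h : m < 2 * k) : sg m k = 0 := by
  unfold sg
  rw [Nat.choose_eq_zero_of_lt h]
  simp

section
variable (m k : ℕ)

theorem C_rel (r : ℕ) : ((m : ℚ) + 1) * (((m + 1 + r).choose r : ℕ) : ℚ) =
    (m + 1 + r) * (((m + r).choose r : ℕ) : ℚ) := by
  have h := Nat.add_one_mul_choose_eq (m + r) m
  have e1 : (m + r).choose m = (m + r).choose r := by
    rw [Nat.choose_symm_add]
  have e2 : (m + r + 1).choose (m + 1) = (m + 1 + r).choose r := by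
    rw [show m + r + 1 = m + 1 + r by ring, Nat.choose_symm_add]
  rw [e1, e2] at h
  have h' := congrArg (fun z : ℕ => (z : ℚ)) h
  push_cast at h'
  linarith

theorem C_next (r : ℕ) : (((m + (r + 1)).choose (r + 1) : ℕ) : ℚ) * (r + 1) =
    (m + 1 + r) * (((m + r).choose r : ℕ) : ℚ) := by
  have h := Nat.add_one_mul_choose_eq (m + r) r
  have h' := congrArg (fun z : ℕ => (z : ℚ)) h
  push_cast at h'
  rw [show m + (r + 1) = m + r + 1 by ring]
  linarith

theorem b_next (r : ℕ) (hr : r < k) : (((2 * k + 1).choose (k - (r + 1)) : ℕ) : ℚ) * (k + r + 2) =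
    (((2 * k + 1).choose (k - r) : ℕ) : ℚ) * (k - r) := by
  obtain ⟨j, rfl⟩ : ∃ j, k = r + 1 + j := ⟨k - (r + 1), by omega⟩
  have h := Nat.choose_succ_right_eq (2 * (r + 1 + j) + 1) j
  have h' := congrArg (fun z : ℕ => (z : ℚ)) h
  rw [show 2 * (r + 1 + j) + 1 - j = 2 * r + 3 + j by omega] at h'
  push_cast at h'
  rw [show r + 1 + j - (r + 1) = j by omega, show r + 1 + j - r = j + 1 by omega]
  push_cast
  linarith

/-- relation between rows `2k+1` and `2k-1`, with `k = κ + 1` -/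
theorem b_row (r : ℕ) (hr : r ≤ k) :
    (((2 * k + 1).choose (k - r) : ℕ) : ℚ) * ((2 * k + 3) * (2 * k + 2)) =
    (((2 * (k + 1) + 1).choose (k + 1 - r) : ℕ) : ℚ) * ((k + 1 - r) * (k + 2 + r)) := by
  obtain ⟨j, rfl⟩ : ∃ j, k = r + j := ⟨k - r, by omega⟩
  have h1 := Nat.add_one_mul_choose_eq (2 * (r + j) + 2) j
  have h2 := Nat.choose_mul_succ_eq (2 * (r + j) + 1) j
  rw [show 2 * (r + j) + 1 + 1 - j = 2 * r + j + 2 by omega] at h2
  have h1' := congrArg (fun z : ℕ => (z : ℚ)) h1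
  have h2' := congrArg (fun z : ℕ => (z : ℚ)) h2
  push_cast at h1' h2'
  rw [show r + j - r = j by omega, show r + j + 1 - r = j + 1 by omega,
    show 2 * (r + j + 1) + 1 = 2 * (r + j) + 2 + 1 by ring]
  push_cast
  linear_combination (2 * (r : ℚ) + 2 * j + 3) * h2' + (2 * (r : ℚ) + j + 2) * h1'

end

/-- the binomial relations for the prefactors -/
theorem Q_rel1 (m k : ℕ) (h : 2 * k ≤ m + 1) : ((m.choose (2 * k) : ℕ) : ℚ) * (m + 1) =
    (((m + 1).choose (2 * k) : ℕ) : ℚ) * (m + 1 - 2 * k) := by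
  have h1 := Nat.choose_mul_succ_eq m (2 * k)
  have h1' := congrArg (fun z : ℕ => (z : ℚ)) h1
  push_cast [Nat.cast_sub h] at h1'
  linarith

theorem Q_rel2 (m k : ℕ) (h : 2 * k ≤ m) : (((m + 1).choose (2 * (k + 1)) : ℕ) : ℚ) *
    ((2 * k + 2) * (2 * k + 1)) = (m + 1) * (m - 2 * k) * ((m.choose (2 * k) : ℕ) : ℚ) := by
  have h1 := Nat.add_one_mul_choose_eq m (2 * k + 1)
  have h2 := Nat.choose_succ_right_eq m (2 * k)
  have h1' := congrArg (fun z : ℕ => (z : ℚ)) h1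
  have h2' := congrArg (fun z : ℕ => (z : ℚ)) h2
  push_cast [Nat.cast_sub h] at h1' h2'
  rw [show 2 * (k + 1) = 2 * k + 1 + 1 by ring]
  linear_combination -(2 * (k : ℚ) + 1) * h1' + (m + 1) * h2'

theorem zero_sum (m k : ℕ) :
    ∑ r ∈ range (k + 1), (((2 * k + 1).choose (k - r) : ℕ) : ℚ) * (((m + r).choose r : ℕ) : ℚ) *
      ((k - r) * (m + 1 + r) - r * (k + 1 + r)) = 0 := by
  have h : ∀ r ∈ range (k + 1), (((2 * k + 1).choose (k - r) : ℕ) : ℚ) *
      (((m + r).choose r : ℕ) : ℚ) * ((k - r) * (m + 1 + r) - r * (k + 1 + r)) =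
      (fun r : ℕ => if r ≤ k then (((2 * k + 1).choose (k - r) : ℕ) : ℚ) *
      (((m + r).choose r : ℕ) : ℚ) * (r * (k + 1 + r)) else 0) (r + 1) -
      (fun r : ℕ => if r ≤ k then (((2 * k + 1).choose (k - r) : ℕ) : ℚ) *
      (((m + r).choose r : ℕ) : ℚ) * (r * (k + 1 + r)) else 0) r := by
    intro r hr
    have hr' := Finset.mem_range.mp hr
    simp only
    rw [if_pos (show r ≤ k by omega)]
    by_cases h : r + 1 ≤ k
    · rw [if_pos h]
      have h1 := C_next m r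
      have h2 := b_next k r h
      push_cast
      linear_combination (-(((2 * k + 1).choose (k - (r + 1)) : ℕ) : ℚ) * (k + 2 + r)) * h1
        - (m + 1 + r) * (((m + r).choose r : ℕ) : ℚ) * h2
    · rw [if_neg h]
      have : k = r := by omega
      subst this
      ring
  rw [Finset.sum_congr rfl h, Finset.sum_range_sub (fun r : ℕ => if r ≤ k then
      (((2 * k + 1).choose (k - r) : ℕ) : ℚ) *
      (((m + r).choose r : ℕ) : ℚ) * (r * (k + 1 + r)) else 0) (k + 1)]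
  simp

theorem sg_rec (m k : ℕ) (h : 2 * (k + 1) ≤ m + 1) :
    ((m : ℚ) + 2) * sg (m + 1) (k + 1) ≤ ((m : ℚ) + 1 + (k + 2) ^ 2) * sg m (k + 1) +
      ((m : ℚ) - 2 * k) * (m + 2 * k + 5) * sg m k := by
  set Q : ℚ := (((m + 1).choose (2 * (k + 1)) : ℕ) : ℚ) / (m + 1) with hQ
  have hm : (m : ℚ) + 1 ≠ 0 := by positivity
  have hk3 : (2 : ℚ) * k + 3 ≠ 0 := by positivity
  have hQ0 : 0 ≤ Q := by rw [hQ]; positivity
  have q1 : (((m + 1).choose (2 * (k + 1)) : ℕ) : ℚ) = Q * (m + 1) := by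
    rw [hQ]; field_simp
  have q2 : ((m.choose (2 * (k + 1)) : ℕ) : ℚ) = Q * (m + 1 - 2 * (k + 1)) := by
    have := Q_rel1 m (k + 1) h
    rw [q1] at this
    have h2 : (((m.choose (2 * (k + 1)) : ℕ) : ℚ) - Q * (m + 1 - 2 * (k + 1))) * (m + 1) = 0 := by
      push_cast at this
      linear_combination this
    have h3 := (mul_eq_zero.mp h2).resolve_right hm
    linarith
  have q3 : ((m : ℚ) - 2 * k) * ((m.choose (2 * k) : ℕ) : ℚ) = Q * ((2 * k + 2) * (2 * k + 1)) := by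
    have := Q_rel2 m k (by omega)
    rw [q1] at this
    have h2 : (((m : ℚ) - 2 * k) * ((m.choose (2 * k) : ℕ) : ℚ) -
        Q * ((2 * k + 2) * (2 * k + 1))) * (m + 1) = 0 := by
      linear_combination -this
    have h3 := (mul_eq_zero.mp h2).resolve_right hm
    linarith
  -- the three sums
  have s1 : ((m : ℚ) + 2) * sg (m + 1) (k + 1) = Q / (2 * k + 3) *
      ∑ r ∈ range (k + 1 + 1), (((2 * (k + 1) + 1).choose (k + 1 - r) : ℕ) : ℚ) *
        (((m + r).choose r : ℕ) : ℚ) * ((m + 2) * (m + 1 + r)) := by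
    unfold sg
    rw [q1]
    have e : ∀ r ∈ range (k + 1 + 1), (((2 * (k + 1) + 1).choose (k + 1 - r) : ℕ) : ℚ) *
        (((m + r).choose r : ℕ) : ℚ) * ((m + 2) * (m + 1 + r)) =
        ((m + 2) * (m + 1)) * ((((2 * (k + 1) + 1).choose (k + 1 - r) : ℕ) : ℚ) *
        (((m + 1 + r).choose r : ℕ) : ℚ)) := by
      intro r _
      linear_combination (-(((2 * (k + 1) + 1).choose (k + 1 - r) : ℕ) : ℚ) * (m + 2)) *
        C_rel m r
    rw [Finset.sum_congr rfl e, ← Finset.mul_sum]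
    push_cast
    rw [show (2 : ℚ) * (k + 1) + 1 = 2 * k + 3 by ring]
    ring
  have s2 : ((m : ℚ) + 1 + (k + 2) ^ 2) * sg m (k + 1) = Q / (2 * k + 3) *
      ∑ r ∈ range (k + 1 + 1), (((2 * (k + 1) + 1).choose (k + 1 - r) : ℕ) : ℚ) *
        (((m + r).choose r : ℕ) : ℚ) * ((m + 1 + (k + 2) ^ 2) * (m + 1 - 2 * (k + 1))) := by
    unfold sg
    rw [q2, ← Finset.sum_mul]
    push_cast
    rw [show (2 : ℚ) * (k + 1) + 1 = 2 * k + 3 by ring]
    ring
  have s3 : ((m : ℚ) - 2 * k) * (m + 2 * k + 5) * sg m k = Q / (2 * k + 3) *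
      ∑ r ∈ range (k + 1 + 1), (((2 * (k + 1) + 1).choose (k + 1 - r) : ℕ) : ℚ) *
        (((m + r).choose r : ℕ) : ℚ) * ((m + 2 * k + 5) * ((k + 1 - r) * (k + 2 + r))) := by
    unfold sg
    rw [Finset.sum_range_succ (n := k + 1)]
    have e0 : (((2 * (k + 1) + 1).choose (k + 1 - (k + 1)) : ℕ) : ℚ) *
        (((m + (k + 1)).choose (k + 1) : ℕ) : ℚ) *
        ((m + 2 * k + 5) * ((k + 1 - ((k + 1 : ℕ) : ℚ)) * (k + 2 + ((k + 1 : ℕ) : ℚ)))) = 0 := by
      push_cast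
      ring
    rw [e0, add_zero]
    have e : ∀ r ∈ range (k + 1), (((2 * (k + 1) + 1).choose (k + 1 - r) : ℕ) : ℚ) *
        (((m + r).choose r : ℕ) : ℚ) * ((m + 2 * k + 5) * ((k + 1 - r) * (k + 2 + r))) =
        ((m + 2 * k + 5) * ((2 * k + 3) * (2 * k + 2))) * ((((2 * k + 1).choose (k - r) : ℕ) : ℚ) *
        (((m + r).choose r : ℕ) : ℚ)) := by
      intro r hr
      have hr' := Finset.mem_range.mp hr
      linear_combination (-(((m + r).choose r : ℕ) : ℚ) * (m + 2 * k + 5)) *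
        b_row k r (by omega)
    rw [Finset.sum_congr rfl e, ← Finset.mul_sum]
    have hk1 : (2 : ℚ) * k + 1 ≠ 0 := by positivity
    have e5 : ((m : ℚ) - 2 * k) * (((m.choose (2 * k) : ℕ) : ℚ) / (2 * k + 1)) =
        Q * (2 * k + 2) := by
      field_simp
      linear_combination q3
    have e6 : Q / (2 * k + 3) * (((m : ℚ) + 2 * k + 5) * ((2 * k + 3) * (2 * k + 2))) =
        (m + 2 * k + 5) * (Q * (2 * k + 2)) := by
      field_simp
    rw [← mul_assoc (Q / (2 * k + 3)), e6, ← e5]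
    ring
  have hz := zero_sum m (k + 1)
  push_cast at hz
  have main : 0 ≤ ∑ r ∈ range (k + 1 + 1), (((2 * (k + 1) + 1).choose (k + 1 - r) : ℕ) : ℚ) *
        (((m + r).choose r : ℕ) : ℚ) * ((m + 1 + (k + 2) ^ 2) * (m + 1 - 2 * (k + 1)) +
        (m + 2 * k + 5) * ((k + 1 - r) * (k + 2 + r)) - (m + 2) * (m + 1 + r)) := by
    have h0 : ∑ r ∈ range (k + 1 + 1), (((2 * (k + 1) + 1).choose (k + 1 - r) : ℕ) : ℚ) *
        (((m + r).choose r : ℕ) : ℚ) * ((m + 1 + (k + 2) ^ 2) * (m + 1 - 2 * (k + 1)) +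
        (m + 2 * k + 5) * ((k + 1 - r) * (k + 2 + r)) - (m + 2) * (m + 1 + r)) =
        ∑ r ∈ range (k + 1 + 1), (((2 * (k + 1) + 1).choose (k + 1 - r) : ℕ) : ℚ) *
        (((m + r).choose r : ℕ) : ℚ) * ((m + 1 + (k + 2) ^ 2) * (m + 1 - 2 * (k + 1)) +
        (m + 2 * k + 5) * ((k + 1 - r) * (k + 2 + r)) - (m + 2) * (m + 1 + r)
        - (2 * k + 3) * ((k + 1 - r) * (m + 1 + r) - r * (k + 1 + 1 + r))) := by
      rw [← sub_eq_zero, ← Finset.sum_sub_distrib]
      rw [← mul_zero (2 * (k : ℚ) + 3), ← hz, Finset.mul_sum]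
      apply Finset.sum_congr rfl
      intro r _
      ring
    rw [h0]
    apply Finset.sum_nonneg
    intro r hr
    have hr' := Finset.mem_range.mp hr
    apply mul_nonneg (by positivity)
    obtain ⟨e, he⟩ : ∃ e, m + 1 = 2 * (k + 1) + e := ⟨m + 1 - 2 * (k + 1), by omega⟩
    obtain ⟨j, hj⟩ : ∃ j, k + 1 = r + j := ⟨k + 1 - r, by omega⟩
    have he' : (m : ℚ) = 2 * k + 1 + e := by
      have := congrArg (fun z : ℕ => (z : ℚ)) he
      push_cast at this
      linarith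
    have hj' : (r : ℚ) = k + 1 - j := by
      have := congrArg (fun z : ℕ => (z : ℚ)) hj
      push_cast at this
      linarith
    have key : ((m : ℚ) + 1 + (k + 2) ^ 2) * (m + 1 - 2 * (k + 1)) +
        (m + 2 * k + 5) * ((k + 1 - r) * (k + 2 + r)) - (m + 2) * (m + 1 + r)
        - (2 * k + 3) * ((k + 1 - r) * (m + 1 + r) - r * (k + 1 + 1 + r)) =
        r * ((2 * k + 1) * (2 * k + 2) - 2 + e * (k + j)) := by
      rw [he', hj']
      ring
    rw [key]
    have : (0 : ℚ) ≤ (2 * k + 1) * (2 * k + 2) - 2 := by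
      have : (0 : ℚ) ≤ k := by positivity
      nlinarith
    positivity
  rw [s1, s2, s3, ← mul_add, ← Finset.sum_add_distrib]
  apply mul_le_mul_of_nonneg_left _ (by positivity)
  rw [← sub_nonneg, ← Finset.sum_sub_distrib]
  refine main.trans (le_of_eq ?_)
  apply Finset.sum_congr rfl
  intro r _
  ring

end Pool.Agent.V11294.TG
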