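import Mathlib
import Pool.Agent.V11294.TG.Ins
import Pool.Agent.V11294.TG.Low

set_option autoImplicit false

/-!
The gamma expansion of the two-sided Eulerian polynomials, with an explicit lower bound for the
slice `j = 0`.
-/

namespace Pool.Agent.V11294.TG

open Finset

section
variable {R : Type*} [CommRing R] [Algebra ℚ R] (D1 D2 : Derivation ℚ R R) (s t : R)
  (h1s : D1 s = s) (h1t : D1 t = 0) (h2s : D2 s = 0) (h2t : D2 t = t)

/-- the monomials of the gamma basis -/
def mon (i j m : ℕ) : R := (s * t) ^ i * (s + t) ^ j * (1 + s * t) ^ m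

/-- the insertion operator -/
def L (N : ℕ) (M : R) : R := ((N : R) + 1) ^ 2 * (s * t) * M + (N + 1) * (1 - s) * t * D1 M +
  (N + 1) * s * (1 - t) * D2 M + (1 - s) * (1 - t) * (D1 (D2 M) + N * M)

theorem L_add (N : ℕ) (x y : R) : L D1 D2 s t N (x + y) = L D1 D2 s t N x + L D1 D2 s t N y := by
  unfold L
  rw [map_add, map_add, map_add]
  ring

theorem L_zero (N : ℕ) : L D1 D2 s t N 0 = 0 := by
  unfold L
  simp

theorem L_smul (N : ℕ) (w : ℚ) (x : R) : L D1 D2 s t N (w • x) = w • L D1 D2 s t N x := by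
  unfold L
  rw [Derivation.map_smul, Derivation.map_smul, Derivation.map_smul]
  simp only [Algebra.smul_def]
  ring

theorem L_sum (N : ℕ) {ι : Type*} (F : Finset ι) (f : ι → R) :
    L D1 D2 s t N (∑ i ∈ F, f i) = ∑ i ∈ F, L D1 D2 s t N (f i) := by
  classical
  induction F using Finset.induction_on with
  | empty => simp [L_zero]
  | insert a F ha ih => rw [Finset.sum_insert ha, Finset.sum_insert ha, L_add, ih]

include h1s h1t in
theorem D1_mon (i j m : ℕ) : D1 (mon s t i j m) = i • mon s t i j m + (j • (mon s t i (j - 1) m) * s)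
    + m • mon s t (i + 1) j (m - 1) := by
  unfold mon
  have ha : D1 (s * t) = s * t := by
    rw [Derivation.leibniz, h1s, h1t]; simp [mul_comm]
  have hb : D1 (s + t) = s := by rw [map_add, h1s, h1t, add_zero]
  have hc : D1 (1 + s * t) = s * t := by rw [map_add, ha]; simp
  rw [Derivation.leibniz, Derivation.leibniz, Derivation.leibniz_pow, Derivation.leibniz_pow,
    Derivation.leibniz_pow, ha, hb, hc]
  simp only [smul_eq_mul, nsmul_eq_mul]
  rcases i with _ | i
  · simp
    ring
  · simp only [Nat.add_sub_cancel]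
    ring

include h2s h2t in
theorem D2_mon (i j m : ℕ) : D2 (mon s t i j m) = i • mon s t i j m + (j • (mon s t i (j - 1) m) * t)
    + m • mon s t (i + 1) j (m - 1) := by
  unfold mon
  have ha : D2 (s * t) = s * t := by
    rw [Derivation.leibniz, h2s, h2t]; simp
  have hb : D2 (s + t) = t := by rw [map_add, h2s, h2t, zero_add]
  have hc : D2 (1 + s * t) = s * t := by rw [map_add, ha]; simp
  rw [Derivation.leibniz, Derivation.leibniz, Derivation.leibniz_pow, Derivation.leibniz_pow,
    Derivation.leibniz_pow, ha, hb, hc]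
  simp only [smul_eq_mul, nsmul_eq_mul]
  rcases i with _ | i
  · simp
    ring
  · simp only [Nat.add_sub_cancel]
    ring

include h1s h1t h2s h2t in
theorem L_mon (N i j m : ℕ) (h : 2 * i + j + m = N + 1) :
    L D1 D2 s t N (mon s t i j m) =
      ((N : R) + i * (i + j)) * mon s t i j (m + 1)
      + ((i : R) * (i + m) - N) * mon s t i (j + 1) m
      + ((j : R) * (2 * N + 3 - j)) * mon s t (i + 1) (j - 1) m
      + ((j : R) * (j - 1)) * mon s t (i + 1) (j - 2) (m + 1)
      + ((m : R) * (2 * N + 3 - m)) * mon s t (i + 1) j (m - 1)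
      + ((m : R) * (m - 1)) * mon s t (i + 1) (j + 1) (m - 2) := by
  have hN : (N : R) = 2 * i + j + m - 1 := by
    have := congrArg (fun z : ℕ => (z : R)) h
    push_cast at this
    linear_combination -this
  unfold L
  rw [D2_mon D2 s t h2s h2t, map_add, map_add, D1_mon D1 s t h1s h1t]
  rw [map_nsmul, map_nsmul, Derivation.leibniz, map_nsmul, h1t]
  rw [D1_mon D1 s t h1s h1t, D1_mon D1 s t h1s h1t, D1_mon D1 s t h1s h1t]
  simp only [smul_eq_mul, nsmul_eq_mul, mul_zero, zero_add]
  unfold mon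
  rw [hN]
  rcases j with _ | _ | j <;> rcases m with _ | _ | m
  all_goals
    simp only [Nat.add_sub_cancel, zero_add, Nat.sub_self, Nat.zero_sub, Nat.cast_zero,
      Nat.cast_one, show (1 : ℕ) - 2 = 0 from rfl, show (1 : ℕ) - 1 = 0 from rfl,
      show ∀ a : ℕ, a + 1 + 1 - 2 = a from fun a => by omega,
      show ∀ a : ℕ, a + 1 + 1 - 1 = a + 1 from fun a => by omega,
      show ∀ a : ℕ, a + 1 + 1 - 1 - 1 = a from fun a => by omega]
    push_cast
    ring

include h1s h1t h2s h2t in
theorem B_L (N : ℕ) : ((N : R) + 1) * B (N + 1) s t = L D1 D2 s t N (B N s t) := by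
  rw [B_rec]
  conv_rhs => unfold B
  rw [L_sum]
  apply Finset.sum_congr rfl
  intro τ _
  have k1 : ∀ a b : ℕ, D1 (s ^ (a + 1) * t ^ b) = (a + 1) * (s ^ (a + 1) * t ^ b) := by
    intro a b
    rw [Derivation.leibniz, Derivation.leibniz_pow, Derivation.leibniz_pow, h1s, h1t]
    simp only [smul_eq_mul, nsmul_eq_mul, mul_zero, zero_add, Nat.add_sub_cancel]
    push_cast
    ring
  have k2 : ∀ a b : ℕ, D2 (s ^ a * t ^ (b + 1)) = (b + 1) * (s ^ a * t ^ (b + 1)) := by
    intro a b
    rw [Derivation.leibniz, Derivation.leibniz_pow, Derivation.leibniz_pow, h2s, h2t]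
    simp only [smul_eq_mul, nsmul_eq_mul, mul_zero, add_zero, Nat.add_sub_cancel]
    push_cast
    ring
  have k3 : ∀ a b : ℕ, D1 (D2 (s ^ (a + 1) * t ^ (b + 1))) =
      (a + 1) * (b + 1) * (s ^ (a + 1) * t ^ (b + 1)) := by
    intro a b
    rw [k2, Derivation.leibniz, k1, map_add]
    simp only [smul_eq_mul, Derivation.map_natCast, Derivation.map_one_eq_zero]
    ring
  unfold L
  rw [k3, k1, k2]
  ring

/-- cone generated by the admissible monomials -/
def Gen (n : ℕ) : Set R := {x | ∃ w : ℚ, 0 ≤ w ∧ ∃ i j m : ℕ, 2 * (i + 1) + j + m = n + 1 ∧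
  j ≤ i * (i + m) ∧ x = w • mon s t (i + 1) j m}

def Cone (n : ℕ) : AddSubmonoid R := AddSubmonoid.closure (Gen s t n)

theorem gen_mem (n i j m : ℕ) (w : ℚ) (hw : 0 ≤ w) (h : w = 0 ∨ (2 * (i + 1) + j + m = n + 1 ∧
    j ≤ i * (i + m))) : (w • mon s t (i + 1) j m) ∈ Cone s t n := by
  rcases h with h | ⟨h1, h2⟩
  · rw [h, zero_smul]; exact (Cone s t n).zero_mem
  · exact AddSubmonoid.subset_closure ⟨w, hw, i, j, m, h1, h2, rfl⟩

include h1s h1t h2s h2t in
/-- the action of the operator on an admissible monomial; the two terms which can land in the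
slice `j = 0` from `j = 0` are split off -/
theorem L_gen (n i j m : ℕ) (h : 2 * (i + 1) + j + m = n + 1) (hj : j ≤ i * (i + m)) :
    ∃ C ∈ Cone s t (n + 1), L D1 D2 s t n (mon s t (i + 1) j m) =
      (((n : ℚ) + (i + 1) * (i + 1 + j)) • mon s t (i + 1) j (m + 1)) +
      (((m : ℚ) * (2 * n + 3 - m)) • mon s t (i + 2) j (m - 1)) + C := by
  refine ⟨(((i : ℚ) * (i + m) - j) • mon s t (i + 1) (j + 1) m) +
    (((j : ℚ) * (2 * n + 3 - j)) • mon s t (i + 1 + 1) (j - 1) m) +
    (((j : ℚ) * (j - 1)) • mon s t (i + 1 + 1) (j - 2) (m + 1)) +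
    (((m : ℚ) * (m - 1)) • mon s t (i + 1 + 1) (j + 1) (m - 2)), ?_, ?_⟩
  · have hjn : (j : ℚ) ≤ n := by
      have : j ≤ n := by omega
      exact_mod_cast this
    have hjq : (j : ℚ) ≤ i * (i + m) := by exact_mod_cast hj
    refine (Cone s t (n + 1)).add_mem ((Cone s t (n + 1)).add_mem
      ((Cone s t (n + 1)).add_mem ?_ ?_) ?_) ?_
    · apply gen_mem
      · linarith
      · rcases eq_or_lt_of_le hj with h1 | h1
        · left
          rw [h1]; push_cast; ring
        · right
          exact ⟨by omega, by omega⟩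
    · apply gen_mem
      · apply mul_nonneg (by positivity)
        linarith
      · rcases j with _ | j
        · left; simp
        · right
          refine ⟨by omega, ?_⟩
          simp only [Nat.add_sub_cancel]
          nlinarith
    · apply gen_mem
      · rcases j with _ | j
        · simp
        · push_cast
          have : (0 : ℚ) ≤ j := by positivity
          nlinarith
      · rcases j with _ | _ | j
        · left; simp
        · left; simp
        · right
          refine ⟨by omega, ?_⟩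
          have : j + 1 + 1 - 2 = j := by omega
          rw [this]
          nlinarith
    · apply gen_mem
      · rcases m with _ | m
        · simp
        · push_cast
          have : (0 : ℚ) ≤ m := by positivity
          nlinarith
      · rcases m with _ | _ | m
        · left; simp
        · left; simp
        · right
          refine ⟨by omega, ?_⟩
          have : m + 1 + 1 - 2 = m := by omega
          rw [this]
          nlinarith
  · rw [L_mon D1 D2 s t h1s h1t h2s h2t n (i + 1) j m h]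
    have hN : (n : R) = 2 * (i + 1) + j + m - 1 := by
      have := congrArg (fun z : ℕ => (z : R)) h
      push_cast at this
      linear_combination -this
    simp only [Algebra.smul_def, map_add, map_sub, map_mul, map_natCast, map_one, map_ofNat]
    rw [hN]
    push_cast
    ring

include h1s h1t h2s h2t in
theorem L_gen' (n i j m : ℕ) (h : 2 * (i + 1) + j + m = n + 1) (hj : j ≤ i * (i + m)) :
    L D1 D2 s t n (mon s t (i + 1) j m) ∈ Cone s t (n + 1) := by
  obtain ⟨C, hC, e⟩ := L_gen D1 D2 s t h1s h1t h2s h2t n i j m h hj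
  rw [e]
  refine (Cone s t (n + 1)).add_mem ((Cone s t (n + 1)).add_mem ?_ ?_) hC
  · apply gen_mem
    · positivity
    · right
      exact ⟨by omega, by nlinarith⟩
  · have hmn : (m : ℚ) ≤ n := by
      have : m ≤ n := by omega
      exact_mod_cast this
    apply gen_mem (i := i + 1)
    · apply mul_nonneg (by positivity)
      linarith
    · rcases m with _ | m
      · left; simp
      · right
        refine ⟨by omega, ?_⟩
        simp only [Nat.add_sub_cancel]
        nlinarith

theorem smul_mem_cone (n : ℕ) (w : ℚ) (hw : 0 ≤ w) (x : R) (hx : x ∈ Cone s t n) :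
    w • x ∈ Cone s t n := by
  unfold Cone at hx ⊢
  induction hx using AddSubmonoid.closure_induction with
  | mem x hx =>
    obtain ⟨v, hv, i, j, m, h1, h2, rfl⟩ := hx
    rw [smul_smul]
    exact gen_mem s t n i j m (w * v) (mul_nonneg hw hv) (Or.inr ⟨h1, h2⟩)
  | zero => rw [smul_zero]; exact AddSubmonoid.zero_mem _
  | add x y _ _ hx hy => rw [smul_add]; exact AddSubmonoid.add_mem _ hx hy

include h1s h1t h2s h2t in
theorem L_cone (n : ℕ) (x : R) (hx : x ∈ Cone s t n) : L D1 D2 s t n x ∈ Cone s t (n + 1) := by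
  unfold Cone at hx
  induction hx using AddSubmonoid.closure_induction with
  | mem x hx =>
    obtain ⟨v, hv, i, j, m, h1, h2, rfl⟩ := hx
    rw [L_smul]
    exact smul_mem_cone s t _ v hv _ (L_gen' D1 D2 s t h1s h1t h2s h2t n i j m h1 h2)
  | zero => rw [L_zero]; exact AddSubmonoid.zero_mem _
  | add x y _ _ hx hy => rw [L_add]; exact AddSubmonoid.add_mem _ hx hy

/-- the lower bound -/
def low (m : ℕ) : R := ∑ k ∈ range (m + 1), sg m k • mon s t (k + 1) 0 (m - 2 * k)

include h1s h1t h2s h2t in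
theorem L_low (m : ℕ) : ∃ C ∈ Cone s t (m + 2), L D1 D2 s t (m + 1) (low s t m) =
    ((m : ℚ) + 2) • low s t (m + 1) + C := by
  -- coefficients of the slice `j = 0`
  have e : ∀ k ∈ range (m + 1), ∃ C ∈ Cone s t (m + 2),
      L D1 D2 s t (m + 1) (sg m k • mon s t (k + 1) 0 (m - 2 * k)) =
      (((m : ℚ) + 1 + (k + 1) ^ 2) * sg m k) • mon s t (k + 1) 0 (m + 1 - 2 * k) +
      (((m : ℚ) - 2 * k) * (m + 2 * k + 5) * sg m k) • mon s t (k + 1 + 1) 0 (m + 1 - 2 * (k + 1))
      + C := by
    intro k _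
    by_cases hk : m < 2 * k
    · refine ⟨0, AddSubmonoid.zero_mem _, ?_⟩
      rw [sg_big m k hk]
      simp [L_zero]
    · obtain ⟨r, hr⟩ : ∃ r, m = 2 * k + r := ⟨m - 2 * k, by omega⟩
      obtain ⟨C, hC, e⟩ := L_gen D1 D2 s t h1s h1t h2s h2t (m + 1) k 0 (m - 2 * k) (by omega)
        (Nat.zero_le _)
      refine ⟨sg m k • C, smul_mem_cone s t _ _ (sg_nonneg m k) _ hC, ?_⟩
      rw [L_smul, e]
      rw [show m - 2 * k + 1 = m + 1 - 2 * k by omega,
        show m + 1 - 2 * (k + 1) = m - 2 * k - 1 by omega]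
      rw [smul_add, smul_add, smul_smul, smul_smul]
      rw [Nat.cast_sub (by omega)]
      congr 2
      · congr 1
        push_cast
        ring
      · congr 1
        push_cast
        ring
  choose! Cf hCf hCe using e
  have e2 : L D1 D2 s t (m + 1) (low s t m) =
      ∑ k ∈ range (m + 1), (((m : ℚ) + 1 + (k + 1) ^ 2) * sg m k) • mon s t (k + 1) 0
        (m + 1 - 2 * k) +
      ∑ k ∈ range (m + 1), (((m : ℚ) - 2 * k) * (m + 2 * k + 5) * sg m k) •
        mon s t (k + 1 + 1) 0 (m + 1 - 2 * (k + 1)) + ∑ k ∈ range (m + 1), Cf k := by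
    unfold low
    rw [L_sum, Finset.sum_congr rfl hCe, Finset.sum_add_distrib, Finset.sum_add_distrib]
  have hCs : ∑ k ∈ range (m + 1), Cf k ∈ Cone s t (m + 2) :=
    AddSubmonoid.sum_mem _ hCf
  -- extend the first sum
  have e3 : ∑ k ∈ range (m + 1), (((m : ℚ) + 1 + (k + 1) ^ 2) * sg m k) • mon s t (k + 1) 0
        (m + 1 - 2 * k) =
      ∑ k ∈ range (m + 1), (((m : ℚ) + 1 + (k + 2) ^ 2) * sg m (k + 1)) • mon s t (k + 1 + 1) 0
        (m + 1 - 2 * (k + 1)) + ((m : ℚ) + 2) • mon s t 1 0 (m + 1) := by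
    have : ∑ k ∈ range (m + 1 + 1), (((m : ℚ) + 1 + ((k : ℕ) + 1) ^ 2) * sg m k) •
        mon s t (k + 1) 0 (m + 1 - 2 * k) = ∑ k ∈ range (m + 1),
        (((m : ℚ) + 1 + (k + 1) ^ 2) * sg m k) • mon s t (k + 1) 0 (m + 1 - 2 * k) := by
      rw [Finset.sum_range_succ, sg_big m (m + 1) (by omega)]
      simp
    rw [← this, Finset.sum_range_succ']
    congr 1
    · apply Finset.sum_congr rfl
      intro k _
      congr 1
      push_cast
      ring
    · rw [sg_zero]
      simp
      congr 1
      ring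
  have e4 : ((m : ℚ) + 2) • low s t (m + 1) = ∑ k ∈ range (m + 1),
      (((m : ℚ) + 2) * sg (m + 1) (k + 1)) • mon s t (k + 1 + 1) 0 (m + 1 - 2 * (k + 1)) +
      ((m : ℚ) + 2) • mon s t 1 0 (m + 1) := by
    unfold low
    rw [Finset.sum_range_succ', smul_add, Finset.smul_sum]
    congr 1
    · apply Finset.sum_congr rfl
      intro k _
      rw [smul_smul]
    · rw [sg_zero]
      simp
  refine ⟨∑ k ∈ range (m + 1), ((((m : ℚ) + 1 + (k + 2) ^ 2) * sg m (k + 1)) +
      ((m : ℚ) - 2 * k) * (m + 2 * k + 5) * sg m k - ((m : ℚ) + 2) * sg (m + 1) (k + 1)) •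
      mon s t (k + 1 + 1) 0 (m + 1 - 2 * (k + 1)) + ∑ k ∈ range (m + 1), Cf k, ?_, ?_⟩
  · refine AddSubmonoid.add_mem _ (AddSubmonoid.sum_mem _ ?_) hCs
    intro k _
    by_cases hk : 2 * (k + 1) ≤ m + 1
    · apply gen_mem (i := k + 1)
      · have := sg_rec m k hk
        linarith
      · right
        exact ⟨by omega, Nat.zero_le _⟩
    · have z1 : sg m (k + 1) = 0 := sg_big _ _ (by omega)
      have z2 : sg (m + 1) (k + 1) = 0 := sg_big _ _ (by omega)
      have z3 : ((m : ℚ) - 2 * k) * sg m k = 0 := by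
        by_cases h : m < 2 * k
        · rw [sg_big _ _ h, mul_zero]
        · have : m = 2 * k := by omega
          rw [this]; push_cast; ring
      have z4 : ((((m : ℚ) + 1 + (k + 2) ^ 2) * sg m (k + 1)) +
        ((m : ℚ) - 2 * k) * (m + 2 * k + 5) * sg m k - ((m : ℚ) + 2) * sg (m + 1) (k + 1)) = 0 := by
        rw [z1, z2]
        linear_combination (m + 2 * (k : ℚ) + 5) * z3
      rw [z4, zero_smul]
      exact AddSubmonoid.zero_mem _
  · rw [e2, e3, e4]
    have : ∑ k ∈ range (m + 1), ((((m : ℚ) + 1 + (k + 2) ^ 2) * sg m (k + 1)) +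
      ((m : ℚ) - 2 * k) * (m + 2 * k + 5) * sg m k - ((m : ℚ) + 2) * sg (m + 1) (k + 1)) •
      mon s t (k + 1 + 1) 0 (m + 1 - 2 * (k + 1)) =
      ∑ k ∈ range (m + 1), (((m : ℚ) + 1 + (k + 2) ^ 2) * sg m (k + 1)) • mon s t (k + 1 + 1) 0
        (m + 1 - 2 * (k + 1)) +
      ∑ k ∈ range (m + 1), (((m : ℚ) - 2 * k) * (m + 2 * k + 5) * sg m k) •
        mon s t (k + 1 + 1) 0 (m + 1 - 2 * (k + 1)) -
      ∑ k ∈ range (m + 1), (((m : ℚ) + 2) * sg (m + 1) (k + 1)) •
        mon s t (k + 1 + 1) 0 (m + 1 - 2 * (k + 1)) := by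
      rw [← Finset.sum_add_distrib, ← Finset.sum_sub_distrib]
      apply Finset.sum_congr rfl
      intro k _
      rw [sub_smul, add_smul]
    rw [this]
    abel

include h1s h1t h2s h2t in
theorem B_low (m : ℕ) : ∃ C ∈ Cone s t (m + 1), B (m + 1) s t = low s t m + C := by
  induction m with
  | zero =>
    refine ⟨0, AddSubmonoid.zero_mem _, ?_⟩
    have hd : ∀ σ : Equiv.Perm (Fin (0 + 1)), des σ = 0 := by
      intro σ
      unfold des
      rw [Finset.card_eq_zero, Finset.filter_eq_empty_iff]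
      rintro i _ ⟨h, _⟩
      omega
    unfold B low mon
    simp [sg_zero, hd]
  | succ m ih =>
    obtain ⟨C, hC, e⟩ := ih
    obtain ⟨C', hC', e'⟩ := L_low D1 D2 s t h1s h1t h2s h2t m
    have h := B_L D1 D2 s t h1s h1t h2s h2t (m + 1)
    rw [e, L_add, e'] at h
    have h2 : ((m : ℚ) + 2) • B (m + 1 + 1) s t = ((m : ℚ) + 2) • low s t (m + 1) + C' +
        L D1 D2 s t (m + 1) C := by
      rw [← h, Algebra.smul_def]
      congr 1
      simp only [map_add, map_natCast, map_ofNat]
      push_cast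
      ring
    refine ⟨((m : ℚ) + 2)⁻¹ • (C' + L D1 D2 s t (m + 1) C), ?_, ?_⟩
    · apply smul_mem_cone s t _ _ (by positivity)
      exact AddSubmonoid.add_mem _ hC' (L_cone D1 D2 s t h1s h1t h2s h2t (m + 1) C hC)
    · have hm : ((m : ℚ) + 2) ≠ 0 := by positivity
      have h3 := congrArg (fun x => ((m : ℚ) + 2)⁻¹ • x) h2
      simp only [smul_add, smul_smul, inv_mul_cancel₀ hm, one_smul] at h3
      rw [h3, smul_add, add_assoc]

end

end Pool.Agent.V11294.TG
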