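import Mathlib
import Pool.Agent.V11294.TG.Low

set_option autoImplicit false

/-!
Lagrange inversion and the explicit formula for the gamma coefficients of separable permutations.
-/

namespace Pool.Agent.V11294.TG

open Finset PowerSeries

theorem coeff_XD (f : ℚ⟦X⟧) (n : ℕ) : coeff n (X * derivative ℚ f) = n * coeff n f := by
  rcases n with _ | n
  · simp
  · rw [coeff_succ_X_mul, coeff_derivative]
    push_cast
    ring

theorem coeff_lt (F G : ℚ⟦X⟧) (hG : F = X * G) (e i : ℕ) (h : e < i) : coeff e (F ^ i) = 0 := by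
  rw [hG, mul_pow, coeff_X_pow_mul', if_neg (by omega)]

theorem lagrange (φ F G : ℚ⟦X⟧) (hG : F = X * G) (hs : HasSubst F)
    (hφ : G = (PowerSeries.subst F φ : ℚ⟦X⟧)) :
    ∀ m j : ℕ, 1 ≤ j → j ≤ m → (m : ℚ) * coeff m (F ^ j) = j * coeff (m - j) (φ ^ m) := by
  intro m
  induction m using Nat.strong_induction_on with
  | _ m ih =>
    intro j hj hjm
    have h1 : coeff m (F ^ j) = coeff (m - j) (G ^ j) := by
      conv_lhs => rw [hG]
      rw [mul_pow, coeff_X_pow_mul', if_pos hjm]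
    have h2 : coeff (m - j) (G ^ j) = ∑ i ∈ range (m - j + 1),
        coeff i (φ ^ j) * coeff (m - j) (F ^ i) := by
      have e1 : G ^ j = (PowerSeries.subst F (φ ^ j) : ℚ⟦X⟧) := by
        rw [PowerSeries.subst_pow hs, ← hφ]
      rw [e1, PowerSeries.coeff_subst' hs]
      rw [finsum_eq_sum_of_support_subset _ (s := range (m - j + 1))]
      · apply Finset.sum_congr rfl
        intro i _
        rw [smul_eq_mul]
      · intro i hi
        rw [Function.mem_support] at hi
        by_contra hc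
        apply hi
        rw [coeff_lt F G hG, smul_zero]
        simp only [Finset.coe_range, Set.mem_Iio] at hc
        omega
    obtain ⟨e, he⟩ : ∃ e, m = j + e := ⟨m - j, by omega⟩
    rw [h1, h2]
    have hme : m - j = e := by omega
    rw [hme]
    rcases Nat.eq_zero_or_pos e with h0 | h0
    · subst h0
      simp
      have : j = m := by omega
      rw [this]
    · have h3 : (e : ℚ) * ∑ i ∈ range (e + 1), coeff i (φ ^ j) * coeff e (F ^ i) =
          coeff e (X * derivative ℚ (φ ^ j) * φ ^ e) := by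
        rw [coeff_mul, Finset.Nat.sum_antidiagonal_eq_sum_range_succ
          (fun a b => coeff a (X * derivative ℚ (φ ^ j)) * coeff b (φ ^ e)) e, Finset.mul_sum]
        apply Finset.sum_congr rfl
        intro i hi
        have hi' := Finset.mem_range.mp hi
        rw [coeff_XD]
        rcases Nat.eq_zero_or_pos i with hi0 | hi0
        · subst hi0
          rw [pow_zero, PowerSeries.coeff_one, if_neg (by omega)]
          simp
        · have := ih e (by omega) i hi0 (by omega)
          linear_combination (coeff i (φ ^ j)) * this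
      have h4 : (m : ℚ) • (X * derivative ℚ (φ ^ j) * φ ^ e) =
          (j : ℚ) • (X * derivative ℚ (φ ^ m)) := by
        rw [derivative_pow, derivative_pow]
        obtain ⟨j, rfl⟩ : ∃ k, j = k + 1 := ⟨j - 1, by omega⟩
        rw [he]
        rw [show j + 1 - 1 = j by omega, show j + 1 + e - 1 = j + e by omega, pow_add]
        simp only [Algebra.smul_def, map_natCast]
        push_cast
        ring
      have h5 := congrArg (coeff e) h4
      rw [PowerSeries.coeff_smul, PowerSeries.coeff_smul, ← h3, coeff_XD] at h5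
      simp only [smul_eq_mul] at h5
      have he0 : (e : ℚ) ≠ 0 := by positivity
      have h6 : (e : ℚ) * ((m : ℚ) * ∑ i ∈ range (e + 1), coeff i (φ ^ j) * coeff e (F ^ i)) =
          e * (j * coeff e (φ ^ m)) := by linarith
      exact mul_left_cancel₀ he0 h6

/-- `f(X) ↦ f(t X²)` -/
noncomputable def E (t : ℚ) : ℚ⟦X⟧ →+* ℚ⟦X⟧ :=
  ((PowerSeries.substAlgHom (R := ℚ) (a := (X ^ 2 : ℚ⟦X⟧))
    (HasSubst.X_pow two_ne_zero)).toRingHom).comp (rescale t)

theorem coeff_E (t : ℚ) (f : ℚ⟦X⟧) (n : ℕ) :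
    coeff n (E t f) = if 2 ∣ n then t ^ (n / 2) * coeff (n / 2) f else 0 := by
  have h : E t f = (PowerSeries.subst (X ^ 2 : ℚ⟦X⟧) (rescale t f) : ℚ⟦X⟧) := by
    unfold E
    rw [← PowerSeries.coe_substAlgHom (HasSubst.X_pow two_ne_zero)]
    rfl
  rw [h, PowerSeries.coeff_subst_X_pow two_ne_zero]
  simp [coeff_rescale]

theorem E_X (t : ℚ) : E t X = t • X ^ 2 := by
  ext n
  rw [coeff_E, PowerSeries.coeff_smul, PowerSeries.coeff_X, PowerSeries.coeff_X_pow]
  by_cases h : n = 2
  · subst h; simp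
  · rw [if_neg h]
    split_ifs with h1 h2
    · omega
    · simp
    · simp

theorem coeff_one_add_X_pow (n k : ℕ) : coeff k ((1 + X : ℚ⟦X⟧) ^ n) = (n.choose k : ℚ) := by
  have h : ((1 + X : ℚ⟦X⟧) ^ n) = (((1 + Polynomial.X : Polynomial ℚ) ^ n : Polynomial ℚ) : ℚ⟦X⟧) := by
    push_cast
    rfl
  rw [h, Polynomial.coeff_coe, Polynomial.coeff_one_add_X_pow]

/-- the Lagrange kernel -/
noncomputable def ph (t : ℚ) : ℚ⟦X⟧ := ((1 + t) • X + E t (1 + X)) * E t (PowerSeries.mk 1)

theorem E_inv (t : ℚ) : (1 - t • X ^ 2 : ℚ⟦X⟧) * E t (PowerSeries.mk 1) = 1 := by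
  rw [← E_X, ← map_one (E t), ← map_sub, ← map_mul, mul_comm (1 - X) (PowerSeries.mk 1),
    mk_one_mul_one_sub_eq_one]

theorem coeff_ph (t : ℚ) (m : ℕ) : coeff m (ph t ^ (m + 1)) =
    (m + 1) * ∑ k ∈ range (m + 1), sg m k * (t ^ k * (1 + t) ^ (m - 2 * k)) := by
  unfold ph
  rw [mul_pow, add_pow, Finset.sum_mul, map_sum]
  have e1 : ∀ l ∈ range (m + 1 + 1), coeff m (((1 + t) • X : ℚ⟦X⟧) ^ l * E t (1 + X) ^ (m + 1 - l) *
      (((m + 1).choose l : ℕ) : ℚ⟦X⟧) * E t (PowerSeries.mk 1) ^ (m + 1)) =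
      if l ≤ m then (1 + t) ^ l * ((m + 1).choose l : ℚ) *
        coeff (m - l) (E t ((1 + X) ^ (m + 1 - l) * (PowerSeries.mk 1) ^ (m + 1))) else 0 := by
    intro l _
    have : ((1 + t) • X : ℚ⟦X⟧) ^ l * E t (1 + X) ^ (m + 1 - l) *
      (((m + 1).choose l : ℕ) : ℚ⟦X⟧) * E t (PowerSeries.mk 1) ^ (m + 1) =
      ((1 + t) ^ l * ((m + 1).choose l : ℚ)) • (X ^ l * E t ((1 + X) ^ (m + 1 - l) *
        (PowerSeries.mk 1) ^ (m + 1))) := by
      rw [smul_pow, map_mul, map_pow, map_pow]
      simp only [Algebra.smul_def, map_mul, map_natCast]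
      ring
    rw [this, PowerSeries.coeff_smul, coeff_X_pow_mul', smul_eq_mul]
    split_ifs <;> simp
  rw [Finset.sum_congr rfl e1, Finset.sum_range_succ, if_neg (by omega), add_zero]
  rw [← Finset.sum_range_reflect]
  have e2 : ∀ e ∈ range (m + 1), (if m + 1 - 1 - e ≤ m then (1 + t) ^ (m + 1 - 1 - e) *
      ((m + 1).choose (m + 1 - 1 - e) : ℚ) *
        coeff (m - (m + 1 - 1 - e)) (E t ((1 + X) ^ (m + 1 - (m + 1 - 1 - e)) *
          (PowerSeries.mk 1) ^ (m + 1))) else 0) =
      if 2 ∣ e then (1 + t) ^ (m - e) * ((m + 1).choose (e + 1) : ℚ) * (t ^ (e / 2) *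
        coeff (e / 2) ((1 + X) ^ (e + 1) * (PowerSeries.mk 1 : ℚ⟦X⟧) ^ (m + 1))) else 0 := by
    intro e he
    have he' := Finset.mem_range.mp he
    rw [if_pos (by omega), coeff_E]
    rw [show m - (m + 1 - 1 - e) = e by omega, show m + 1 - (m + 1 - 1 - e) = e + 1 by omega,
      show m + 1 - 1 - e = m - e by omega]
    have : (m + 1).choose (m - e) = (m + 1).choose (e + 1) := by
      rw [← Nat.choose_symm (show e + 1 ≤ m + 1 by omega)]
      congr 1
      omega
    rw [this]
    split_ifs <;> simp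
  rw [Finset.sum_congr rfl e2, ← Finset.sum_filter]
  have e3 : ∑ k ∈ range (m + 1), sg m k * (t ^ k * (1 + t) ^ (m - 2 * k)) =
      ∑ k ∈ (range (m + 1)).filter (fun k => 2 * k ≤ m), sg m k * (t ^ k * (1 + t) ^ (m - 2 * k)) := by
    rw [Finset.sum_filter]
    apply Finset.sum_congr rfl
    intro k _
    by_cases h : 2 * k ≤ m
    · rw [if_pos h]
    · rw [if_neg h, sg_big m k (by omega), zero_mul]
  rw [e3, Finset.mul_sum]
  refine Finset.sum_nbij' (fun e => e / 2) (fun k => 2 * k) ?_ ?_ ?_ ?_ ?_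
  · intro e he
    simp only [Finset.mem_filter, Finset.mem_range] at he ⊢
    omega
  · intro k hk
    simp only [Finset.mem_filter, Finset.mem_range] at hk ⊢
    omega
  · intro e he
    simp only [Finset.mem_filter, Finset.mem_range] at he
    omega
  · intro k _
    omega
  · intro e he
    simp only [Finset.mem_filter, Finset.mem_range] at he
    obtain ⟨he1, k, rfl⟩ := he
    rw [show 2 * k / 2 = k by omega]
    have c1 : coeff k ((1 + X) ^ (2 * k + 1) * (PowerSeries.mk 1 : ℚ⟦X⟧) ^ (m + 1)) =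
        ∑ r ∈ range (k + 1), (((2 * k + 1).choose (k - r) : ℕ) : ℚ) *
          (((m + r).choose r : ℕ) : ℚ) := by
      rw [mul_comm, coeff_mul, Finset.Nat.sum_antidiagonal_eq_sum_range_succ
        (fun a b => coeff a ((PowerSeries.mk 1 : ℚ⟦X⟧) ^ (m + 1)) *
          coeff b ((1 + X : ℚ⟦X⟧) ^ (2 * k + 1))) k]
      apply Finset.sum_congr rfl
      intro r _
      rw [coeff_one_add_X_pow, mk_one_pow_eq_mk_choose_add, coeff_mk, Nat.choose_symm_add]
      ring
    rw [c1]
    unfold sg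
    have c2 := Nat.add_one_mul_choose_eq m (2 * k)
    have c2' := congrArg (fun z : ℕ => (z : ℚ)) c2
    push_cast at c2'
    have hk1 : (2 : ℚ) * k + 1 ≠ 0 := by positivity
    have c3 : ((m + 1).choose (2 * k + 1) : ℚ) = (m + 1) * (((m.choose (2 * k) : ℕ) : ℚ) /
        (2 * k + 1)) := by
      field_simp
      linarith
    rw [c3]
    ring

theorem sep_coeff (t : ℚ) (F : ℚ⟦X⟧) (h0 : constantCoeff F = 0)
    (hF : F * (1 - t • F ^ 2) = X * ((1 + F) * (1 + t • F))) (m : ℕ) :
    coeff (m + 1) F = ∑ k ∈ range (m + 1), sg m k * (t ^ k * (1 + t) ^ (m - 2 * k)) := by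
  have hs : HasSubst F := HasSubst.of_constantCoeff_zero' h0
  set H : ℚ⟦X⟧ →ₐ[ℚ] ℚ⟦X⟧ := PowerSeries.substAlgHom (R := ℚ) (a := F) hs with hH
  have HX : H X = F := PowerSeries.substAlgHom_X hs
  have hp : (1 - t • X ^ 2 : ℚ⟦X⟧) * ph t = (1 + t) • X + 1 + t • X ^ 2 := by
    unfold ph
    rw [mul_comm _ (E t (PowerSeries.mk 1)), ← mul_assoc, E_inv, one_mul, map_add, map_one, E_X]
    ring
  have h1 := congrArg H hp
  simp only [map_mul, map_sub, map_one, map_add, map_smul, map_pow, HX] at h1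
  have hG : F = X * H (ph t) := by
    have hne : (1 - t • F ^ 2 : ℚ⟦X⟧) ≠ 0 := by
      intro h
      have := congrArg constantCoeff h
      rw [map_sub, map_one, map_zero] at this
      rw [Algebra.smul_def, map_mul, map_pow, h0] at this
      simp at this
    apply mul_left_cancel₀ hne
    have : (1 + F) * (1 + t • F) = (1 - t • F ^ 2) * H (ph t) := by
      rw [h1]
      simp only [Algebra.smul_def, map_add, map_one]
      ring
    calc (1 - t • F ^ 2) * F = F * (1 - t • F ^ 2) := by ring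
      _ = X * ((1 + F) * (1 + t • F)) := hF
      _ = (1 - t • F ^ 2) * (X * H (ph t)) := by rw [this]; ring
  have hφ : H (ph t) = (PowerSeries.subst F (ph t) : ℚ⟦X⟧) := by
    rw [hH, PowerSeries.coe_substAlgHom]
  have h2 := lagrange (ph t) F (H (ph t)) hG hs hφ (m + 1) 1 le_rfl (by omega)
  rw [pow_one, Nat.add_sub_cancel, coeff_ph] at h2
  have hm : ((m + 1 : ℕ) : ℚ) ≠ 0 := by positivity
  apply mul_left_cancel₀ hm
  rw [h2]
  push_cast
  ring

end Pool.Agent.V11294.TG
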