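import Mathlib
import Pool.Agent.V11294.TG.Ins
import Pool.Agent.V11294.TG.Dec

set_option autoImplicit false

/-!
Direct sums of permutations and the generating polynomials of separable permutations.
-/

namespace Pool.Agent.V11294.TG

open Finset

/-- the one-line notation as a function on `ℕ` -/
def vf {n : ℕ} (σ : Equiv.Perm (Fin n)) (i : ℕ) : ℤ :=
  if h : i < n then ((σ ⟨i, h⟩ : ℕ) : ℤ) else i

theorem vf_val {n : ℕ} (σ : Equiv.Perm (Fin n)) (i : Fin n) : vf σ i = ((σ i : ℕ) : ℤ) := by
  unfold vf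
  rw [dif_pos i.2]

theorem vf_lt {n : ℕ} (σ : Equiv.Perm (Fin n)) (i : ℕ) (h : i < n) : vf σ i < n := by
  rw [vf_val σ ⟨i, h⟩]
  exact_mod_cast (σ ⟨i, h⟩).2

theorem vf_nonneg {n : ℕ} (σ : Equiv.Perm (Fin n)) (i : ℕ) (h : i < n) : 0 ≤ vf σ i := by
  rw [vf_val σ ⟨i, h⟩]
  positivity

theorem vf_inj {n : ℕ} (σ : Equiv.Perm (Fin n)) (i j : ℕ) (hi : i < n) (hj : j < n)
    (h : vf σ i = vf σ j) : i = j := by
  rw [vf_val σ ⟨i, hi⟩, vf_val σ ⟨j, hj⟩] at h
  have h2 : (σ ⟨i, hi⟩ : ℕ) = (σ ⟨j, hj⟩ : ℕ) := by exact_mod_cast h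
  have h3 := σ.injective (Fin.ext h2)
  simpa using h3

theorem ex_vf {n : ℕ} (σ : Equiv.Perm (Fin n)) (i : ℕ) (h : i < n) :
    (ex σ (i + 1) : ℤ) = vf σ i + 1 := by
  rw [vf_val σ ⟨i, h⟩]
  have := ex_succ σ ⟨i, h⟩
  simp only at this
  rw [this]
  push_cast
  rfl

/-- direct sum -/
def dsum {a b : ℕ} (α : Equiv.Perm (Fin a)) (β : Equiv.Perm (Fin b)) : Equiv.Perm (Fin (a + b)) :=
  finSumFinEquiv.permCongr (Equiv.Perm.sumCongr α β)

theorem dsum_left {a b : ℕ} (α : Equiv.Perm (Fin a)) (β : Equiv.Perm (Fin b)) (i : Fin a) :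
    dsum α β (Fin.castAdd b i) = Fin.castAdd b (α i) := by
  simp [dsum, Equiv.permCongr_apply]

theorem dsum_right {a b : ℕ} (α : Equiv.Perm (Fin a)) (β : Equiv.Perm (Fin b)) (j : Fin b) :
    dsum α β (Fin.natAdd a j) = Fin.natAdd a (β j) := by
  simp [dsum, Equiv.permCongr_apply]

theorem vf_dsum_left {a b : ℕ} (α : Equiv.Perm (Fin a)) (β : Equiv.Perm (Fin b)) (i : ℕ)
    (h : i < a) : vf (dsum α β) i = vf α i := by
  have h1 := vf_val (dsum α β) (Fin.castAdd b ⟨i, h⟩)
  rw [dsum_left] at h1
  have h2 := vf_val α ⟨i, h⟩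
  simp only [Fin.val_castAdd] at h1
  rw [h1]
  exact h2.symm

theorem vf_dsum_right {a b : ℕ} (α : Equiv.Perm (Fin a)) (β : Equiv.Perm (Fin b)) (j : ℕ)
    (h : j < b) : vf (dsum α β) (a + j) = a + vf β j := by
  have h1 := vf_val (dsum α β) (Fin.natAdd a ⟨j, h⟩)
  rw [dsum_right] at h1
  have h2 := vf_val β ⟨j, h⟩
  simp only [Fin.val_natAdd] at h1
  rw [h1]
  push_cast
  rw [← h2]

theorem Sepf_glue (f g h : ℕ → ℤ) (a b : ℕ) (hg : ∀ i, i < a → f i = g i)
    (hh : ∀ j, j < b → f (a + j) = a + h j) (bg : ∀ i, i < a → g i < a)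
    (bh : ∀ j, j < b → 0 ≤ h j) : Sepf f (a + b) ↔ Sepf g a ∧ Sepf h b := by
  constructor
  · intro hS
    constructor
    · intro p q r s h1 h2 h3 h4
      have := hS p q r s h1 h2 h3 (by omega)
      rw [hg p (by omega), hg q (by omega), hg r (by omega), hg s (by omega)] at this
      exact this
    · intro p q r s h1 h2 h3 h4
      have := hS (a + p) (a + q) (a + r) (a + s) (by omega) (by omega) (by omega) (by omega)
      rw [hh p (by omega), hh q (by omega), hh r (by omega), hh s (by omega)] at this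
      constructor
      · rintro ⟨k1, k2, k3⟩
        exact this.1 ⟨by linarith, by linarith, by linarith⟩
      · rintro ⟨k1, k2, k3⟩
        exact this.2 ⟨by linarith, by linarith, by linarith⟩
  · rintro ⟨hS1, hS2⟩ p q r s h1 h2 h3 h4
    by_cases hs : s < a
    · rw [hg p (by omega), hg q (by omega), hg r (by omega), hg s (by omega)]
      exact hS1 p q r s h1 h2 h3 hs
    · have big : ∀ x, ¬ x < a → x < a + b → (a : ℤ) ≤ f x := by
        intro x hx hxb
        have := hh (x - a) (by omega)
        rw [show a + (x - a) = x by omega] at this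
        rw [this]
        have := bh (x - a) (by omega)
        linarith
      have small : ∀ x, x < a → f x < a := by
        intro x hx
        rw [hg x hx]; exact bg x hx
      by_cases hp : p < a
      · constructor
        · rintro ⟨k1, k2, k3⟩
          have m1 := small p hp
          have m2 := big s hs h4
          have m3 : r < a := by
            by_contra hr
            have := big r hr (by omega)
            linarith
          have m4 := small q (by omega)
          linarith
        · rintro ⟨k1, k2, k3⟩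
          have m1 := small p hp
          have m2 := big s hs h4
          linarith
      · have e : ∀ x, ¬ x < a → x < a + b → f x = a + h (x - a) := by
          intro x hx hxb
          have := hh (x - a) (by omega)
          rw [show a + (x - a) = x by omega] at this
          exact this
        rw [e p hp (by omega), e q (by omega) (by omega), e r (by omega) (by omega),
          e s (by omega) (by omega)]
        have := hS2 (p - a) (q - a) (r - a) (s - a) (by omega) (by omega) (by omega) (by omega)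
        constructor
        · rintro ⟨k1, k2, k3⟩
          exact this.1 ⟨by linarith, by linarith, by linarith⟩
        · rintro ⟨k1, k2, k3⟩
          exact this.2 ⟨by linarith, by linarith, by linarith⟩

theorem Cutf_glue (f g h : ℕ → ℤ) (a b : ℕ) (hg : ∀ i, i < a → f i = g i)
    (hh : ∀ j, j < b → f (a + j) = a + h j) (bg : ∀ i, i < a → g i < a)
    (bh : ∀ j, j < b → 0 ≤ h j) (m : ℕ) (hm : m ≤ a) : Cutf f (a + b) m ↔ Cutf g a m := by
  constructor
  · intro hC i j hi hj hja
    have := hC i j hi hj (by omega)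
    rw [hg i (by omega), hg j hja] at this
    exact this
  · intro hC i j hi hj hjb
    by_cases hja : j < a
    · rw [hg i (by omega), hg j hja]
      exact hC i j hi hj hja
    · have := hh (j - a) (by omega)
      rw [show a + (j - a) = j by omega] at this
      rw [this, hg i (by omega)]
      have := bh (j - a) (by omega)
      have := bg i (by omega)
      linarith

theorem Sepf_dsum {a b : ℕ} (α : Equiv.Perm (Fin a)) (β : Equiv.Perm (Fin b)) :
    Sepf (vf (dsum α β)) (a + b) ↔ Sepf (vf α) a ∧ Sepf (vf β) b :=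
  Sepf_glue _ _ _ a b (vf_dsum_left α β) (vf_dsum_right α β) (vf_lt α) (vf_nonneg β)

theorem Cutf_dsum {a b : ℕ} (α : Equiv.Perm (Fin a)) (β : Equiv.Perm (Fin b)) (m : ℕ)
    (hm : m ≤ a) : Cutf (vf (dsum α β)) (a + b) m ↔ Cutf (vf α) a m :=
  Cutf_glue _ _ _ a b (vf_dsum_left α β) (vf_dsum_right α β) (vf_lt α) (vf_nonneg β) m hm

theorem dsum_inj {a b : ℕ} : Function.Injective
    (fun x : Equiv.Perm (Fin a) × Equiv.Perm (Fin b) => dsum x.1 x.2) := by
  rintro ⟨α, β⟩ ⟨α', β'⟩ h
  simp only at h
  have h1 : α = α' := by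
    ext i
    have := congrArg (fun e : Equiv.Perm (Fin (a + b)) => e (Fin.castAdd b i)) h
    simp only [dsum_left] at this
    exact congrArg Fin.val (Fin.castAdd_injective a b this)
  have h2 : β = β' := by
    ext i
    have := congrArg (fun e : Equiv.Perm (Fin (a + b)) => e (Fin.natAdd a i)) h
    simp only [dsum_right] at this
    exact congrArg Fin.val (Fin.natAdd_injective b a this)
  rw [h1, h2]

theorem dsum_surj {a b : ℕ} (σ : Equiv.Perm (Fin (a + b))) (h : Cutf (vf σ) (a + b) a) :
    ∃ (α : Equiv.Perm (Fin a)) (β : Equiv.Perm (Fin b)), dsum α β = σ := by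
  have key : ∀ i : Fin a, (σ (Fin.castAdd b i) : ℕ) < a := by
    intro i
    have h1 : (Finset.univ.image (fun j : Fin b => σ (Fin.natAdd a j))) ⊆
        Finset.Ioi (σ (Fin.castAdd b i)) := by
      intro x hx
      rw [Finset.mem_image] at hx
      obtain ⟨j, _, rfl⟩ := hx
      rw [Finset.mem_Ioi, Fin.lt_def]
      have := h i (a + j) i.2 (by omega) (by have := j.2; omega)
      have e1 := vf_val σ (Fin.castAdd b i)
      have e2 := vf_val σ (Fin.natAdd a j)
      simp only [Fin.val_castAdd, Fin.val_natAdd] at e1 e2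
      rw [e1, e2] at this
      exact_mod_cast this
    have h2 := Finset.card_le_card h1
    have hinj : Function.Injective (fun j : Fin b => σ (Fin.natAdd a j)) :=
      σ.injective.comp (Fin.natAdd_injective b a)
    rw [Finset.card_image_of_injective _ hinj,
      Fin.card_Ioi, Finset.card_univ, Fintype.card_fin] at h2
    have h3 := (σ (Fin.castAdd b i)).2
    have h4 := i.2
    omega
  have hm : Set.MapsTo (finSumFinEquiv.symm.permCongr σ : Equiv.Perm (Fin a ⊕ Fin b))
      (Set.range Sum.inl) (Set.range Sum.inl) := by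
    rintro _ ⟨i, rfl⟩
    rw [Equiv.permCongr_apply]
    simp only [Equiv.symm_symm, finSumFinEquiv_apply_left]
    refine ⟨⟨σ (Fin.castAdd b i), key i⟩, ?_⟩
    rw [Equiv.eq_symm_apply]
    rw [finSumFinEquiv_apply_left]
    ext
    simp
  obtain ⟨⟨α, β⟩, hab⟩ := Equiv.Perm.mem_sumCongrHom_range_of_perm_mapsTo_inl hm
  refine ⟨α, β, ?_⟩
  unfold dsum
  have hab' : Equiv.Perm.sumCongr α β = finSumFinEquiv.symm.permCongr σ := hab
  rw [hab']
  ext x
  simp [Equiv.permCongr_apply]

theorem des_le {n : ℕ} (σ : Equiv.Perm (Fin (n + 1))) : des σ ≤ n := by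
  unfold des
  have h : (Finset.univ : Finset (Fin (n + 1))).filter
      (fun i : Fin (n + 1) => ∃ h : (i : ℕ) + 1 < n + 1, σ ⟨(i : ℕ) + 1, h⟩ < σ i) ⊆
      Finset.univ.erase (Fin.last n) := by
    intro i hi
    rw [Finset.mem_filter] at hi
    obtain ⟨_, h, _⟩ := hi
    rw [Finset.mem_erase]
    refine ⟨?_, Finset.mem_univ _⟩
    rintro rfl
    simp at h
  refine (Finset.card_le_card h).trans ?_
  rw [Finset.card_erase_of_mem (Finset.mem_univ _)]
  simp

theorem ex_dsum_left {a b : ℕ} (α : Equiv.Perm (Fin a)) (β : Equiv.Perm (Fin b)) (i : ℕ)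
    (h : i ≤ a) : ex (dsum α β) i = ex α i := by
  rcases i with _ | i
  · rw [ex_zero, ex_zero]
  · have h1 := ex_vf (dsum α β) i (by omega)
    have h2 := ex_vf α i (by omega)
    rw [vf_dsum_left α β i (by omega), ← h2] at h1
    exact_mod_cast h1

theorem ex_dsum_right {a b : ℕ} (α : Equiv.Perm (Fin a)) (β : Equiv.Perm (Fin b)) (j : ℕ) :
    ex (dsum α β) (a + 1 + j) = a + ex β (1 + j) := by
  by_cases h : j < b
  · have h1 := ex_vf (dsum α β) (a + j) (by omega)
    have h2 := ex_vf β j h
    rw [vf_dsum_right α β j h] at h1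
    rw [show a + 1 + j = a + j + 1 by ring, show 1 + j = j + 1 by ring]
    have h3 : ((ex (dsum α β) (a + j + 1) : ℕ) : ℤ) = ((a + ex β (j + 1) : ℕ) : ℤ) := by
      rw [h1]; push_cast; rw [h2]; ring
    exact_mod_cast h3
  · rw [ex_big _ _ (by omega), ex_big _ _ (by omega)]
    ring

theorem des_dsum {a b : ℕ} (α : Equiv.Perm (Fin a)) (β : Equiv.Perm (Fin b)) :
    des (dsum α β) = des α + des β := by
  rw [des_eq, des_eq, des_eq]
  have e1 : a + b + 1 = a + (1 + b) := by ring
  rw [e1, Finset.sum_range_add, Finset.sum_range_add _ 1 b]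
  rw [Finset.sum_range_succ (fun i => if ex α (i + 1) < ex α i then 1 else 0) a,
    Finset.sum_range_succ' (fun i => if ex β (i + 1) < ex β i then 1 else 0) b]
  rw [Finset.sum_range_one]
  have z1 : (if ex α (a + 1) < ex α a then 1 else 0) = 0 := by
    rw [if_neg]
    rw [ex_big α (a + 1) (by omega)]
    have := ex_le' α a le_rfl
    omega
  have z2 : (if ex β (0 + 1) < ex β 0 then 1 else 0) = 0 := by
    rw [if_neg]
    rw [ex_zero]
    omega
  have z3 : (if ex (dsum α β) (a + 0 + 1) < ex (dsum α β) (a + 0) then 1 else 0) = 0 := by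
    rw [if_neg]
    have h1 := ex_dsum_right α β 0
    rw [show a + 0 + 1 = a + 1 + 0 by ring, h1, add_zero a, ex_dsum_left α β a le_rfl]
    have := ex_le' α a le_rfl
    omega
  rw [z1, z2, z3, add_zero, add_zero, zero_add]
  congr 1
  · apply Finset.sum_congr rfl
    intro i hi
    have hi' := Finset.mem_range.mp hi
    rw [ex_dsum_left α β i (by omega), ex_dsum_left α β (i + 1) (by omega)]
  · apply Finset.sum_congr rfl
    intro j _
    have h1 := ex_dsum_right α β j
    have h2 := ex_dsum_right α β (j + 1)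
    rw [show a + (1 + j) + 1 = a + 1 + (j + 1) by ring, show a + (1 + j) = a + 1 + j by ring,
      h1, h2, show 1 + (j + 1) = j + 1 + 1 by ring, show 1 + j = j + 1 by ring]
    simp

/-- complement -/
def comp {n : ℕ} (σ : Equiv.Perm (Fin n)) : Equiv.Perm (Fin n) := σ.trans Fin.revPerm

theorem comp_comp {n : ℕ} (σ : Equiv.Perm (Fin n)) : comp (comp σ) = σ := by
  ext i
  simp [comp]

theorem vf_comp {n : ℕ} (σ : Equiv.Perm (Fin n)) (i : ℕ) (h : i < n) :
    vf (comp σ) i = (n : ℤ) - 1 - vf σ i := by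
  rw [vf_val (comp σ) ⟨i, h⟩, vf_val σ ⟨i, h⟩]
  unfold comp
  simp only [Equiv.trans_apply, Fin.revPerm_apply, Fin.val_rev]
  have := (σ ⟨i, h⟩).2
  omega

theorem Sepf_comp {n : ℕ} (σ : Equiv.Perm (Fin n)) : Sepf (vf (comp σ)) n ↔ Sepf (vf σ) n := by
  have key : ∀ σ : Equiv.Perm (Fin n), Sepf (vf σ) n → Sepf (vf (comp σ)) n := by
    intro σ h a b c d h1 h2 h3 h4
    rw [vf_comp σ a (by omega), vf_comp σ b (by omega), vf_comp σ c (by omega),
      vf_comp σ d (by omega)]
    obtain ⟨k1, k2⟩ := h a b c d h1 h2 h3 h4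
    constructor
    · rintro ⟨l1, l2, l3⟩
      exact k2 ⟨by linarith, by linarith, by linarith⟩
    · rintro ⟨l1, l2, l3⟩
      exact k1 ⟨by linarith, by linarith, by linarith⟩
  refine ⟨fun h => ?_, key σ⟩
  have := key _ h
  rwa [comp_comp] at this

theorem CutPf_comp {n : ℕ} (σ : Equiv.Perm (Fin n)) :
    CutPf (vf (comp σ)) n ↔ CutPf (fun i => -vf σ i) n := by
  constructor
  · rintro ⟨m, h1, h2, h3⟩
    refine ⟨m, h1, h2, ?_⟩
    intro i j hi hj hjn
    have := h3 i j hi hj hjn
    rw [vf_comp σ i (by omega), vf_comp σ j hjn] at this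
    simp only
    linarith
  · rintro ⟨m, h1, h2, h3⟩
    refine ⟨m, h1, h2, ?_⟩
    intro i j hi hj hjn
    have := h3 i j hi hj hjn
    rw [vf_comp σ i (by omega), vf_comp σ j hjn]
    simp only at this
    linarith

theorem des_int {n : ℕ} (σ : Equiv.Perm (Fin (n + 1))) :
    des σ = ∑ i ∈ range n, if vf σ (i + 1) < vf σ i then 1 else 0 := by
  rw [des_eq, Finset.sum_range_succ, Finset.sum_range_succ']
  rw [ex_zero, if_neg (by omega), add_zero]
  rw [if_neg, add_zero]
  · apply Finset.sum_congr rfl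
    intro i hi
    have hi' := Finset.mem_range.mp hi
    have h1 := ex_vf σ i (by omega)
    have h2 := ex_vf σ (i + 1) (by omega)
    congr 1
    rw [eq_iff_iff]
    omega
  · rw [ex_big σ (n + 1 + 1) (by omega)]
    have := ex_le' σ (n + 1) le_rfl
    omega

theorem des_comp {n : ℕ} (σ : Equiv.Perm (Fin (n + 1))) : des (comp σ) = n - des σ := by
  have h : des (comp σ) + des σ = n := by
    rw [des_int, des_int, ← Finset.sum_add_distrib]
    have : ∀ i ∈ range n, ((if vf (comp σ) (i + 1) < vf (comp σ) i then 1 else 0) +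
        if vf σ (i + 1) < vf σ i then 1 else 0) = 1 := by
      intro i hi
      have hi' := Finset.mem_range.mp hi
      rw [vf_comp σ i (by omega), vf_comp σ (i + 1) (by omega)]
      have hne : vf σ i ≠ vf σ (i + 1) := fun h => by
        have := vf_inj σ i (i + 1) (by omega) (by omega) h
        omega
      split_ifs <;> omega
    rw [Finset.sum_congr rfl this]
    simp
  omega

end Pool.Agent.V11294.TG
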