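import Mathlib
import Pool.Agent.V11294.TG.Sep

set_option autoImplicit false

/-!
The functional equation of the generating series of separable permutations.
-/

namespace Pool.Agent.V11294.TG

open Finset

open Classical in
/-- weight -/
noncomputable def wt (x y : ℚ) {n : ℕ} (σ : Equiv.Perm (Fin n)) : ℚ :=
  x ^ des σ * y ^ (n - 1 - des σ)

open Classical in
noncomputable def Fs (x y : ℚ) (n : ℕ) : ℚ :=
  if n = 0 then 0 else ∑ σ : Equiv.Perm (Fin n), if Sepf (vf σ) n then wt x y σ else 0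

open Classical in
noncomputable def Ps (x y : ℚ) (n : ℕ) : ℚ :=
  if n = 0 then 0 else ∑ σ : Equiv.Perm (Fin n),
    if Sepf (vf σ) n ∧ CutPf (vf σ) n then wt x y σ else 0

open Classical in
noncomputable def Ms (x y : ℚ) (n : ℕ) : ℚ :=
  if n = 0 then 0 else ∑ σ : Equiv.Perm (Fin n),
    if Sepf (vf σ) n ∧ CutPf (fun i => -vf σ i) n then wt x y σ else 0

theorem F_split (x y : ℚ) (n : ℕ) : Fs x y n = (if n = 1 then 1 else 0) + Ps x y n + Ms x y n := by
  classical
  rcases n with _ | _ | n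
  · simp [Fs, Ps, Ms]
  · have hd : ∀ σ : Equiv.Perm (Fin (0 + 1)), des σ = 0 := by
      intro σ
      have := des_le σ
      omega
    have hS : ∀ σ : Equiv.Perm (Fin (0 + 1)), Sepf (vf σ) (0 + 1) := by
      intro σ a b c d h1 h2 h3 h4
      omega
    have hC : ∀ f : ℕ → ℤ, ¬ CutPf f (0 + 1) := by
      rintro f ⟨m, h1, h2, _⟩
      omega
    unfold Fs Ps Ms wt
    rw [if_neg (by omega), if_pos (by omega), if_neg (by omega), if_neg (by omega)]
    have e1 : ∀ σ ∈ (Finset.univ : Finset (Equiv.Perm (Fin (0 + 1)))),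
        (if Sepf (vf σ) (0 + 1) then x ^ des σ * y ^ (0 + 1 - 1 - des σ) else 0) = 1 := by
      intro σ _
      rw [if_pos (hS σ), hd]
      simp
    have e2 : ∀ σ ∈ (Finset.univ : Finset (Equiv.Perm (Fin (0 + 1)))),
        (if Sepf (vf σ) (0 + 1) ∧ CutPf (vf σ) (0 + 1) then
          x ^ des σ * y ^ (0 + 1 - 1 - des σ) else 0) = 0 := by
      intro σ _
      rw [if_neg (fun h => hC _ h.2)]
    have e3 : ∀ σ ∈ (Finset.univ : Finset (Equiv.Perm (Fin (0 + 1)))),
        (if Sepf (vf σ) (0 + 1) ∧ CutPf (fun i => -vf σ i) (0 + 1) then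
          x ^ des σ * y ^ (0 + 1 - 1 - des σ) else 0) = 0 := by
      intro σ _
      rw [if_neg (fun h => hC _ h.2)]
    rw [Finset.sum_congr rfl e1, Finset.sum_congr rfl e2, Finset.sum_congr rfl e3]
    simp [Fintype.card_perm]
  · unfold Fs Ps Ms
    rw [if_neg (by omega), if_neg (by omega), if_neg (by omega), if_neg (by omega), zero_add,
      ← Finset.sum_add_distrib]
    apply Finset.sum_congr rfl
    intro σ _
    by_cases hS : Sepf (vf σ) (n + 1 + 1)
    · rcases dec (n + 1 + 1) (vf σ) (by omega) (vf_inj σ) hS with h | h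
      · have h' : ¬ CutPf (fun i => -vf σ i) (n + 1 + 1) := fun h2 => cut_excl _ _ h h2
        rw [if_pos hS, if_pos ⟨hS, h⟩, if_neg (fun h2 => h' h2.2), add_zero]
      · have h' : ¬ CutPf (vf σ) (n + 1 + 1) := fun h2 => cut_excl _ _ h2 h
        rw [if_pos hS, if_neg (fun h2 => h' h2.2), if_pos ⟨hS, h⟩, zero_add]
    · rw [if_neg hS, if_neg (fun h2 => hS h2.1), if_neg (fun h2 => hS h2.1), add_zero]

/-- the first cut is at `m` -/
def First (f : ℕ → ℤ) (n m : ℕ) : Prop := Cutf f n m ∧ ∀ m', 0 < m' → m' < m → ¬ Cutf f n m'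

theorem first_unique (f : ℕ → ℤ) (n m m' : ℕ) (h : First f n m) (h' : First f n m')
    (h0 : 0 < m) (h0' : 0 < m') : m = m' := by
  rcases lt_trichotomy m m' with h1 | h1 | h1
  · exact absurd h.1 (h'.2 m h0 h1)
  · exact h1
  · exact absurd h'.1 (h.2 m' h0' h1)

theorem sum_cut (a b : ℕ) (g : Equiv.Perm (Fin (a + b)) → ℚ)
    (hg : ∀ σ, ¬ Cutf (vf σ) (a + b) a → g σ = 0) :
    ∑ σ, g σ = ∑ α : Equiv.Perm (Fin a), ∑ β : Equiv.Perm (Fin b), g (dsum α β) := by
  classical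
  rw [← Fintype.sum_prod_type']
  symm
  refine Finset.sum_of_injOn (fun x : Equiv.Perm (Fin a) × Equiv.Perm (Fin b) => dsum x.1 x.2)
    (dsum_inj.injOn) (fun _ _ => by simp) ?_ (fun _ _ => rfl)
  intro σ _ hσ
  apply hg
  intro hc
  apply hσ
  obtain ⟨α, β, h⟩ := dsum_surj σ hc
  exact ⟨(α, β), by simp, h⟩

theorem wt_dsum (x y : ℚ) (a b : ℕ) (α : Equiv.Perm (Fin (a + 1))) (β : Equiv.Perm (Fin (b + 1))) :
    wt x y (dsum α β) = y * (wt x y α * wt x y β) := by
  unfold wt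
  have h1 := des_le α
  have h2 := des_le β
  rw [des_dsum]
  rw [show a + 1 + (b + 1) - 1 - (des α + des β) = (a + 1 - 1 - des α) + (b + 1 - 1 - des β) + 1 by
    omega]
  rw [pow_add, pow_add, pow_add]
  ring

theorem P_rec (x y : ℚ) (n : ℕ) : Ps x y n =
    y * ∑ p ∈ Finset.HasAntidiagonal.antidiagonal n, (Fs x y p.1 - Ps x y p.1) * Fs x y p.2 := by
  classical
  rcases Nat.eq_zero_or_pos n with hn | hn
  · subst hn
    simp [Fs, Ps]
  have e1 : Ps x y n = ∑ σ : Equiv.Perm (Fin n), ∑ p ∈ Finset.HasAntidiagonal.antidiagonal n,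
      if (0 < p.1 ∧ 0 < p.2) ∧ Sepf (vf σ) n ∧ First (vf σ) n p.1 then wt x y σ else 0 := by
    unfold Ps
    rw [if_neg (by omega)]
    apply Finset.sum_congr rfl
    intro σ _
    by_cases h : Sepf (vf σ) n ∧ CutPf (vf σ) n
    · rw [if_pos h]
      obtain ⟨hS, hC⟩ := h
      have hC' : ∃ m, 0 < m ∧ m < n ∧ Cutf (vf σ) n m := hC
      obtain ⟨k1, k2, k3⟩ := Nat.find_spec hC'
      have hmin := fun m' (h : m' < Nat.find hC') => Nat.find_min hC' h
      set m := Nat.find hC' with hm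
      have hF : First (vf σ) n m := ⟨k3, fun m' h1 h2 h3 => hmin m' h2 ⟨h1, by omega, h3⟩⟩
      rw [Finset.sum_eq_single (m, n - m)]
      · rw [if_pos ⟨⟨k1, by simp only; omega⟩, hS, hF⟩]
      · intro p hp hne
        rw [if_neg]
        rintro ⟨⟨h1, h2⟩, _, h3⟩
        have := first_unique _ _ _ _ h3 hF h1 k1
        apply hne
        rw [Finset.HasAntidiagonal.mem_antidiagonal] at hp
        ext
        · exact this
        · simp only; omega
      · intro h
        exfalso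
        apply h
        rw [Finset.HasAntidiagonal.mem_antidiagonal]
        simp only
        omega
    · rw [if_neg h]
      symm
      apply Finset.sum_eq_zero
      intro p hp
      rw [Finset.HasAntidiagonal.mem_antidiagonal] at hp
      rw [if_neg]
      rintro ⟨⟨h1, h2⟩, hS, hF⟩
      exact h ⟨hS, p.1, h1, by omega, hF.1⟩
  rw [e1, Finset.sum_comm, Finset.mul_sum]
  apply Finset.sum_congr rfl
  rintro ⟨a, b⟩ hp
  rw [Finset.HasAntidiagonal.mem_antidiagonal] at hp
  simp only at hp ⊢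
  subst hp
  rcases a with _ | a
  · simp [Fs, Ps]
  rcases b with _ | b
  · simp [Fs]
  rw [sum_cut (a + 1) (b + 1) _ (by
    intro σ hσ
    rw [if_neg]
    rintro ⟨_, _, h⟩
    exact hσ h.1)]
  have e2 : Fs x y (a + 1) - Ps x y (a + 1) = ∑ α : Equiv.Perm (Fin (a + 1)),
      if Sepf (vf α) (a + 1) ∧ ¬ CutPf (vf α) (a + 1) then wt x y α else 0 := by
    unfold Fs Ps
    rw [if_neg (by omega), if_neg (by omega), ← Finset.sum_sub_distrib]
    apply Finset.sum_congr rfl
    intro α _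
    by_cases h1 : Sepf (vf α) (a + 1) <;> by_cases h2 : CutPf (vf α) (a + 1) <;> simp [h1, h2]
  have e3 : Fs x y (b + 1) = ∑ β : Equiv.Perm (Fin (b + 1)),
      if Sepf (vf β) (b + 1) then wt x y β else 0 := by
    unfold Fs
    rw [if_neg (by omega)]
  rw [e2, e3, Finset.sum_mul_sum, Finset.mul_sum]
  apply Finset.sum_congr rfl
  intro α _
  rw [Finset.mul_sum]
  apply Finset.sum_congr rfl
  intro β _
  have k1 : First (vf (dsum α β)) (a + 1 + (b + 1)) (a + 1) ↔ ¬ CutPf (vf α) (a + 1) := by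
    unfold First
    constructor
    · rintro ⟨_, h⟩ ⟨m, h1, h2, h3⟩
      exact h m h1 h2 ((Cutf_dsum α β m (by omega)).mpr h3)
    · intro h
      refine ⟨(Cutf_dsum α β (a + 1) le_rfl).mpr (fun i j _ h2 h3 => by omega), ?_⟩
      intro m h1 h2 h3
      exact h ⟨m, h1, h2, (Cutf_dsum α β m (by omega)).mp h3⟩
  rw [k1, Sepf_dsum, wt_dsum]
  by_cases h1 : Sepf (vf α) (a + 1) <;> by_cases h2 : CutPf (vf α) (a + 1) <;>
    by_cases h3 : Sepf (vf β) (b + 1) <;> simp [h1, h2, h3]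

/-- complement as an equivalence -/
def compE (n : ℕ) : Equiv.Perm (Fin n) ≃ Equiv.Perm (Fin n) := ⟨comp, comp, comp_comp, comp_comp⟩

theorem wt_comp (x y : ℚ) (n : ℕ) (σ : Equiv.Perm (Fin (n + 1))) :
    wt x y (comp σ) = wt y x σ := by
  unfold wt
  have h := des_le σ
  rw [des_comp, show n + 1 - 1 - (n - des σ) = des σ by omega,
    show n + 1 - 1 - des σ = n - des σ by omega]
  ring

theorem Fs_symm (x y : ℚ) (n : ℕ) : Fs x y n = Fs y x n := by
  classical
  rcases n with _ | n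
  · simp [Fs]
  unfold Fs
  rw [if_neg (by omega), if_neg (by omega)]
  rw [← Equiv.sum_comp (compE (n + 1))]
  apply Finset.sum_congr rfl
  intro σ _
  show (if Sepf (vf (comp σ)) (n + 1) then wt x y (comp σ) else 0) = _
  rw [Sepf_comp, wt_comp]

theorem Ps_symm (x y : ℚ) (n : ℕ) : Ps x y n = Ms y x n := by
  classical
  rcases n with _ | n
  · simp [Ps, Ms]
  unfold Ps Ms
  rw [if_neg (by omega), if_neg (by omega)]
  rw [← Equiv.sum_comp (compE (n + 1))]
  apply Finset.sum_congr rfl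
  intro σ _
  show (if Sepf (vf (comp σ)) (n + 1) ∧ CutPf (vf (comp σ)) (n + 1) then wt x y (comp σ) else 0) = _
  rw [Sepf_comp, CutPf_comp, wt_comp]

theorem M_rec (x y : ℚ) (n : ℕ) : Ms x y n =
    x * ∑ p ∈ Finset.HasAntidiagonal.antidiagonal n, (Fs x y p.1 - Ms x y p.1) * Fs x y p.2 := by
  rw [← Ps_symm, P_rec]
  congr 1
  apply Finset.sum_congr rfl
  intro p _
  rw [Fs_symm y x, Fs_symm y x, Ps_symm y x]

open PowerSeries in
/-- the functional equation -/
theorem fun_eq (t : ℚ) : (PowerSeries.mk (Fs t 1)) * (1 - t • (PowerSeries.mk (Fs t 1)) ^ 2) =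
    X * ((1 + PowerSeries.mk (Fs t 1)) * (1 + t • PowerSeries.mk (Fs t 1))) := by
  have h1 : PowerSeries.mk (Fs t 1) = X + PowerSeries.mk (Ps t 1) + PowerSeries.mk (Ms t 1) := by
    ext n
    rw [map_add, map_add, coeff_mk, coeff_mk, coeff_mk, coeff_X, F_split]
  have h2 : PowerSeries.mk (Ps t 1) =
      (PowerSeries.mk (Fs t 1) - PowerSeries.mk (Ps t 1)) * PowerSeries.mk (Fs t 1) := by
    ext n
    rw [coeff_mk, coeff_mul, P_rec, one_mul]
    apply Finset.sum_congr rfl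
    intro p _
    rw [map_sub, coeff_mk, coeff_mk, coeff_mk]
  have h3 : PowerSeries.mk (Ms t 1) =
      t • ((PowerSeries.mk (Fs t 1) - PowerSeries.mk (Ms t 1)) * PowerSeries.mk (Fs t 1)) := by
    ext n
    rw [coeff_mk, PowerSeries.coeff_smul, coeff_mul, M_rec, smul_eq_mul]
    congr 1
    apply Finset.sum_congr rfl
    intro p _
    rw [map_sub, coeff_mk, coeff_mk, coeff_mk]
  set F : ℚ⟦X⟧ := PowerSeries.mk (Fs t 1)
  set P : ℚ⟦X⟧ := PowerSeries.mk (Ps t 1)
  set M : ℚ⟦X⟧ := PowerSeries.mk (Ms t 1)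
  simp only [Algebra.smul_def] at h3 ⊢
  set c : ℚ⟦X⟧ := algebraMap ℚ ℚ⟦X⟧ t
  linear_combination (1 + F) * (1 + c * F) * h1 + (1 + c * F) * h2 + (1 + F) * h3

end Pool.Agent.V11294.TG
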