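import Mathlib
import Pool.Agent.V11294.TG.Gam
import Pool.Agent.V11294.TG.Lag
import Pool.Agent.V11294.TG.Ser

set_option autoImplicit false

/-!
Comparison of the two families of coefficients.
-/

namespace Pool.Agent.V11294.TG

open Finset

/-- uniqueness of gamma expansions -/
theorem uni_poly (m K : ℕ) (d : ℕ → ℚ)
    (h : ∑ k ∈ range K, Polynomial.C (d k) * (Polynomial.X ^ k *
      (1 + Polynomial.X) ^ (m - 2 * k)) = (0 : Polynomial ℚ)) : ∀ k, k < K → d k = 0 := by
  intro k
  induction k using Nat.strong_induction_on with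
  | _ k ih =>
    intro hk
    have h1 := congrArg (fun p => Polynomial.coeff p k) h
    simp only [Polynomial.finset_sum_coeff, Polynomial.coeff_zero] at h1
    rw [Finset.sum_eq_single k] at h1
    · rw [Polynomial.coeff_C_mul, Polynomial.coeff_X_pow_mul', if_pos le_rfl, Nat.sub_self,
        Polynomial.coeff_one_add_X_pow] at h1
      simpa using h1
    · intro j hj hjk
      have hj' := Finset.mem_range.mp hj
      rcases lt_or_gt_of_ne hjk with h2 | h2
      · rw [ih j h2 hj']
        simp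
      · rw [Polynomial.coeff_C_mul, Polynomial.coeff_X_pow_mul', if_neg (by omega), mul_zero]
    · intro h2
      exact absurd (Finset.mem_range.mpr hk) h2

theorem uni_eval (m K : ℕ) (d : ℕ → ℚ)
    (h : ∀ x : ℚ, ∑ k ∈ range K, d k * ((-x ^ 2) ^ k * (1 + -x ^ 2) ^ (m - 2 * k)) = 0) :
    ∀ k, k < K → d k = 0 := by
  apply uni_poly m K d
  apply Polynomial.eq_zero_of_infinite_isRoot
  have h1 : Set.range (fun n : ℕ => -((n : ℚ)) ^ 2) ⊆ {x | Polynomial.IsRoot
      (∑ k ∈ range K, Polynomial.C (d k) * (Polynomial.X ^ k *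
      (1 + Polynomial.X) ^ (m - 2 * k)) : Polynomial ℚ) x} := by
    rintro _ ⟨n, rfl⟩
    have := h n
    simp only [Set.mem_setOf_eq, Polynomial.IsRoot, Polynomial.eval_finset_sum, Polynomial.eval_mul,
      Polynomial.eval_C, Polynomial.eval_pow, Polynomial.eval_X, Polynomial.eval_add,
      Polynomial.eval_one]
    exact this
  refine Set.Infinite.mono h1 (Set.infinite_range_of_injective ?_)
  intro a b hab
  simp only [neg_inj] at hab
  have h2 : ((a : ℚ)) = b := by
    rwa [sq_eq_sq₀ (by positivity) (by positivity)] at hab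
  exact_mod_cast h2

/-- the index set of the gamma expansion -/
def Idx (n : ℕ) : Finset (ℕ × ℕ) :=
  (range n ×ˢ range n).filter (fun p => 2 * p.1 + p.2 ≤ n - 1)

/-- the gamma expansion -/
def gexp {R : Type*} [CommRing R] [Algebra ℚ R] (n : ℕ) (g : ℕ → ℕ → ℚ) (s t : R) : R :=
  ∑ p ∈ Idx n, g p.1 p.2 • ((s * t) ^ p.1 * (1 + s * t) ^ p.2 * (s + t) ^ (n - 1 - p.2 - 2 * p.1))

theorem gexp_add {R : Type*} [CommRing R] [Algebra ℚ R] (n : ℕ) (g g' : ℕ → ℕ → ℚ) (s t : R) :
    gexp n (fun i j => g i j + g' i j) s t = gexp n g s t + gexp n g' s t := by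
  unfold gexp
  rw [← Finset.sum_add_distrib]
  apply Finset.sum_congr rfl
  intro p _
  rw [add_smul]

theorem cone_rep {R : Type*} [CommRing R] [Algebra ℚ R] (n : ℕ) (s t : R) (x : R)
    (hx : x ∈ Cone s t n) : ∃ e : ℕ → ℕ → ℚ, (∀ i j, 0 ≤ e i j) ∧ x = s * t * gexp n e s t := by
  unfold Cone at hx
  induction hx using AddSubmonoid.closure_induction with
  | mem x hx =>
    obtain ⟨w, hw, i, j, m, h1, h2, rfl⟩ := hx
    refine ⟨fun a b => if (a, b) = (i, m) then w else 0, ?_, ?_⟩
    · intro a b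
      simp only
      split_ifs
      · exact hw
      · exact le_rfl
    · unfold gexp
      rw [Finset.sum_eq_single (i, m)]
      · simp only [if_true]
        unfold mon
        rw [show n - 1 - m - 2 * i = j by omega]
        simp only [Algebra.smul_def]
        ring
      · rintro ⟨a, b⟩ _ hne
        simp only
        rw [if_neg hne, zero_smul]
      · intro h
        exfalso
        apply h
        unfold Idx
        simp only [Finset.mem_filter, Finset.mem_product, Finset.mem_range]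
        omega
  | zero =>
    refine ⟨fun _ _ => 0, fun _ _ => le_rfl, ?_⟩
    unfold gexp
    simp
  | add x y _ _ hx hy =>
    obtain ⟨e, h1, h2⟩ := hx
    obtain ⟨e', h1', h2'⟩ := hy
    refine ⟨fun i j => e i j + e' i j, fun i j => add_nonneg (h1 i j) (h1' i j), ?_⟩
    rw [gexp_add, h2, h2']
    ring

theorem low_rep {R : Type*} [CommRing R] [Algebra ℚ R] (m : ℕ) (s t : R) :
    low s t m = s * t * gexp (m + 1) (fun i j => if j + 2 * i = m then sg m i else 0) s t := by
  unfold low gexp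
  have h1 : ∑ k ∈ range (m + 1), sg m k • mon s t (k + 1) 0 (m - 2 * k) =
      ∑ k ∈ (range (m + 1)).filter (fun k => 2 * k ≤ m), sg m k • mon s t (k + 1) 0 (m - 2 * k) := by
    rw [Finset.sum_filter]
    apply Finset.sum_congr rfl
    intro k _
    by_cases h : 2 * k ≤ m
    · rw [if_pos h]
    · rw [if_neg h, sg_big m k (by omega), zero_smul]
  have h2 : ∑ p ∈ Idx (m + 1), (if p.2 + 2 * p.1 = m then sg m p.1 else 0) •
      ((s * t) ^ p.1 * (1 + s * t) ^ p.2 * (s + t) ^ (m + 1 - 1 - p.2 - 2 * p.1)) =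
      ∑ p ∈ (Idx (m + 1)).filter (fun p => p.2 + 2 * p.1 = m), sg m p.1 •
      ((s * t) ^ p.1 * (1 + s * t) ^ p.2) := by
    rw [Finset.sum_filter]
    apply Finset.sum_congr rfl
    intro p _
    by_cases h : p.2 + 2 * p.1 = m
    · rw [if_pos h, if_pos h, show m + 1 - 1 - p.2 - 2 * p.1 = 0 by omega, pow_zero, mul_one]
    · rw [if_neg h, if_neg h, zero_smul]
  rw [h1, h2, Finset.mul_sum]
  refine Finset.sum_nbij' (fun k => (k, m - 2 * k)) (fun p => p.1) ?_ ?_ ?_ ?_ ?_
  · intro k hk
    simp only [Finset.mem_filter, Finset.mem_range] at hk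
    unfold Idx
    simp only [Finset.mem_filter, Finset.mem_product, Finset.mem_range]
    omega
  · rintro ⟨a, b⟩ hp
    unfold Idx at hp
    simp only [Finset.mem_filter, Finset.mem_product, Finset.mem_range] at hp ⊢
    omega
  · intro k _
    rfl
  · rintro ⟨a, b⟩ hp
    simp only [Finset.mem_filter] at hp
    simp only [Prod.mk.injEq, true_and]
    omega
  · intro k _
    simp only
    unfold mon
    simp only [Algebra.smul_def]
    ring

/-- the slice `t = -s` -/
theorem slice (n : ℕ) (g : ℕ → ℕ → ℚ) (x : ℚ) : gexp n g x (-x) =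
    ∑ k ∈ range ((n - 1) / 2 + 1), (if n = 0 then 0 else g k (n - 1 - 2 * k)) *
      ((-x ^ 2) ^ k * (1 + -x ^ 2) ^ (n - 1 - 2 * k)) := by
  rcases n with _ | m
  · simp [gexp, Idx]
  unfold gexp
  have h2 : ∑ p ∈ Idx (m + 1), g p.1 p.2 •
      ((x * -x) ^ p.1 * (1 + x * -x) ^ p.2 * (x + -x) ^ (m + 1 - 1 - p.2 - 2 * p.1)) =
      ∑ p ∈ (Idx (m + 1)).filter (fun p => p.2 + 2 * p.1 = m), g p.1 p.2 *
      ((-x ^ 2) ^ p.1 * (1 + -x ^ 2) ^ p.2) := by
    rw [Finset.sum_filter]
    apply Finset.sum_congr rfl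
    intro p hp
    unfold Idx at hp
    simp only [Finset.mem_filter, Finset.mem_product, Finset.mem_range] at hp
    rw [show x * -x = -x ^ 2 by ring, smul_eq_mul]
    by_cases h : p.2 + 2 * p.1 = m
    · rw [if_pos h, show m + 1 - 1 - p.2 - 2 * p.1 = 0 by omega, pow_zero, mul_one]
    · rw [if_neg h, add_neg_cancel, zero_pow (by omega)]
      ring
  rw [h2]
  symm
  refine Finset.sum_nbij' (fun k => (k, m - 2 * k)) (fun p => p.1) ?_ ?_ ?_ ?_ ?_
  · intro k hk
    simp only [Finset.mem_range] at hk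
    unfold Idx
    simp only [Finset.mem_filter, Finset.mem_product, Finset.mem_range]
    omega
  · rintro ⟨a, b⟩ hp
    unfold Idx at hp
    simp only [Finset.mem_filter, Finset.mem_product, Finset.mem_range] at hp ⊢
    omega
  · intro k _
    rfl
  · rintro ⟨a, b⟩ hp
    simp only [Finset.mem_filter] at hp
    simp only [Prod.mk.injEq, true_and]
    omega
  · intro k _
    rw [if_neg (by omega)]
    simp only [Nat.add_sub_cancel]

theorem slice_unique (m : ℕ) (g g' : ℕ → ℕ → ℚ)
    (h : ∀ x : ℚ, gexp (m + 1) g x (-x) = gexp (m + 1) g' x (-x)) (k : ℕ) (hk : k ≤ m / 2) :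
    g k (m - 2 * k) = g' k (m - 2 * k) := by
  have := uni_eval m (m / 2 + 1) (fun k => g k (m - 2 * k) - g' k (m - 2 * k)) (by
    intro x
    have h1 := h x
    rw [slice, slice] at h1
    simp only [Nat.add_sub_cancel, if_neg (Nat.succ_ne_zero m)] at h1
    rw [← sub_eq_zero, ← Finset.sum_sub_distrib] at h1
    rw [← h1]
    apply Finset.sum_congr rfl
    intro k _
    ring) k (by omega)
  linarith

/-- the derivations on `ℚ[s,t]` -/
noncomputable def DD (v : Fin 2 → MvPolynomial (Fin 2) ℚ) :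
    Derivation ℚ (MvPolynomial (Fin 2) ℚ) (MvPolynomial (Fin 2) ℚ) :=
  MvPolynomial.mkDerivation ℚ v

/-- a gamma expansion of the two-sided Eulerian polynomial with the lower bound on the slice -/
theorem exists_gamma (m : ℕ) : ∃ g : ℕ → ℕ → ℚ, (∀ i j, 0 ≤ g i j) ∧
    (∀ k, 2 * k ≤ m → sg m k ≤ g k (m - 2 * k)) ∧
    ∑ σ : Equiv.Perm (Fin (m + 1)), (MvPolynomial.X 0 : MvPolynomial (Fin 2) ℚ) ^ des σ⁻¹ *
      MvPolynomial.X 1 ^ des σ = gexp (m + 1) g (MvPolynomial.X 0) (MvPolynomial.X 1) := by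
  set s : MvPolynomial (Fin 2) ℚ := MvPolynomial.X 0 with hs
  set t : MvPolynomial (Fin 2) ℚ := MvPolynomial.X 1 with ht
  obtain ⟨C, hC, e⟩ := B_low (DD ![s, 0]) (DD ![0, t]) s t
    (by unfold DD; rw [hs, MvPolynomial.mkDerivation_X]; simp)
    (by unfold DD; rw [ht, MvPolynomial.mkDerivation_X]; simp)
    (by unfold DD; rw [hs, MvPolynomial.mkDerivation_X]; simp)
    (by unfold DD; rw [ht, MvPolynomial.mkDerivation_X]; simp) m
  obtain ⟨e', he', hC'⟩ := cone_rep (m + 1) s t C hC
  refine ⟨fun i j => (if j + 2 * i = m then sg m i else 0) + e' i j, ?_, ?_, ?_⟩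
  · intro i j
    apply add_nonneg _ (he' i j)
    split_ifs
    · exact sg_nonneg m i
    · exact le_rfl
  · intro k hk
    simp only
    rw [if_pos (by omega)]
    linarith [he' k (m - 2 * k)]
  · have hst : s * t ≠ 0 := mul_ne_zero (MvPolynomial.X_ne_zero 0) (MvPolynomial.X_ne_zero 1)
    apply mul_left_cancel₀ hst
    rw [gexp_add, mul_add, ← low_rep, ← hC', ← e]
    unfold B
    rw [Finset.mul_sum]
    apply Finset.sum_congr rfl
    intro σ _
    ring

end Pool.Agent.V11294.TG
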